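import Pool.Agent.H54.Damp.Exist

set_option autoImplicit false
set_option linter.unusedSectionVars false

open scoped RealInnerProductSpace
open MeasureTheory Filter Topology

namespace Pool.Agent.H54.Damp

variable {H : Type*} [NormedAddCommGroup H] [InnerProductSpace ℝ H] [CompleteSpace H]

/-- admissibility for integrated solutions on `(0, ∞)` -/
def AdmI (G : H →L[ℝ] H) (c K : ℝ) : Prop :=
  ∀ w p f : ℝ → H, IntOn G c w p f 0 → ∀ N M : ℝ, 0 < N → 0 ≤ M →
    (∀ᵐ t, N ≤ t → ‖f t‖ ≤ M) → ∀ η > 0, ∃ N', ∀ t, N' ≤ t → ‖p t‖ ≤ K * M + η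

theorem ClOn.extend {G : H →L[ℝ] H} {c : ℝ} {w p f : ℝ → H} {N : ℝ} (hN : 0 < N)
    (h : ClOn G c w p f (Set.Ioi 0)) (h0 : ∀ t < N, w t = 0 ∧ p t = 0 ∧ f t = 0) :
    ClOn G c w p f Set.univ := by
  intro t _
  rcases lt_or_ge 0 t with ht | ht
  · exact h t ht
  · have htN : t < N := by linarith
    obtain ⟨z1, z2, z3⟩ := h0 t htN
    refine ⟨0, 0, ?_, ?_, ?_, ?_⟩
    · refine (hasDerivAt_const t (0 : H)).congr_of_eventuallyEq ?_
      filter_upwards [Iio_mem_nhds htN] with x hx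
      exact (h0 x hx).1
    · refine (hasDerivAt_const t (0 : H)).congr_of_eventuallyEq ?_
      filter_upwards [Iio_mem_nhds htN] with x hx
      exact (h0 x hx).2.1
    · rw [z2, map_zero]
    · rw [z1, z2, z3]; simp

theorem cut_force_bound {G : H →L[ℝ] H} {g c m R x1 x2 a : ℝ} (hg : 0 ≤ g)
    (hGg : ∀ x, ‖G x‖ ≤ g * ‖x‖) (hc : 0 ≤ c) {w p f : H} (hx : 0 ≤ a ∧ a ≤ 1)
    (h1 : |x1| ≤ m) (h2 : |x2| ≤ m) (hw : ‖w‖ ≤ R) (hp : ‖p‖ ≤ R) {M : ℝ} (hf : ‖f‖ ≤ M) :
    ‖a • f + (2 : ℝ) • x1 • p + (x2 + c * x1) • G w‖ ≤ M + m * ((2 + (1 + c) * g) * R) := by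
  have hM : 0 ≤ M := (norm_nonneg _).trans hf
  have hm : 0 ≤ m := (abs_nonneg _).trans h1
  have hR : 0 ≤ R := (norm_nonneg _).trans hw
  have n1 : ‖a • f‖ ≤ M := by
    rw [norm_smul, Real.norm_of_nonneg hx.1]
    calc a * ‖f‖ ≤ 1 * M := mul_le_mul hx.2 hf (norm_nonneg _) (by norm_num)
      _ = M := one_mul _
  have n2 : ‖(2 : ℝ) • x1 • p‖ ≤ 2 * (m * R) := by
    rw [norm_smul, norm_smul, Real.norm_eq_abs, Real.norm_eq_abs, abs_of_pos (by norm_num : (0:ℝ) < 2)]
    exact mul_le_mul_of_nonneg_left (mul_le_mul h1 hp (norm_nonneg _) hm) (by norm_num)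
  have n3 : ‖(x2 + c * x1) • G w‖ ≤ (m * (1 + c)) * (g * R) := by
    rw [norm_smul, Real.norm_eq_abs]
    have a1 : |x2 + c * x1| ≤ m * (1 + c) := by
      calc |x2 + c * x1| ≤ |x2| + |c * x1| := abs_add_le _ _
        _ = |x2| + c * |x1| := by rw [abs_mul, abs_of_nonneg hc]
        _ ≤ m + c * m := add_le_add h2 (mul_le_mul_of_nonneg_left h1 hc)
        _ = _ := by ring
    have a2 : ‖G w‖ ≤ g * R := (hGg w).trans (mul_le_mul_of_nonneg_left hw hg)
    exact mul_le_mul a1 a2 (norm_nonneg _) (by positivity)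
  calc _ ≤ ‖a • f‖ + ‖(2 : ℝ) • x1 • p‖ + ‖(x2 + c * x1) • G w‖ := norm_add₃_le
    _ ≤ M + 2 * (m * R) + (m * (1 + c)) * (g * R) := by gcongr
    _ = _ := by ring

theorem kapF_admI {G : H →L[ℝ] H} (hG : ∀ x y, ⟪G x, y⟫ = ⟪x, G y⟫) {g c K : ℝ} (hg : 0 ≤ g)
    (hGg : ∀ x, ‖G x‖ ≤ g * ‖x‖) (hc : 0 < c) (hK : 0 ≤ K) (h : KapF G c K) : AdmI G c K := by
  intro w p f hs N M hN hM0 hM η hη
  obtain ⟨W1, hW1⟩ := isCompact_Icc.exists_bound_of_continuousOn (s := Set.Icc N (N + 1))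
    (hs.cw.mono fun x hx => lt_of_lt_of_le hN hx.1)
  obtain ⟨W2, hW2⟩ := isCompact_Icc.exists_bound_of_continuousOn (s := Set.Icc N (N + 1))
    (hs.cp.mono fun x hx => lt_of_lt_of_le hN hx.1)
  set W := max W1 W2 with hWd
  have hδ := delC_pos (c1 := c) hg hc
  have hB := bC_pos (c1 := c) hg hc
  have hW0 : 0 ≤ W := ((norm_nonneg _).trans (hW1 N ⟨le_rfl, by linarith⟩)).trans (le_max_left _ _)
  set R := Real.sqrt (8 * W ^ 2 + 4 * (bC g c c / delC g c c) * M ^ 2) with hRd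
  have hR0 : 0 ≤ R := Real.sqrt_nonneg _
  have hR2 : R ^ 2 = 8 * W ^ 2 + 4 * (bC g c c / delC g c c) * M ^ 2 :=
    Real.sq_sqrt (by positivity)
  have hfb : ∀ k : ℝ, 0 < k → ∀ t, N ≤ t → ‖St k f t‖ ≤ M := by
    intro k hk t ht
    apply St_bound hk
    filter_upwards [hM] with s hs' hst
    exact hs' (by linarith [hst.1])
  have hbd : ∀ k : ℝ, 0 < k → k ≤ 1 → ∀ t, N ≤ t → ‖St k w t‖ ≤ R ∧ ‖St k p t‖ ≤ R := by
    intro k hk hk1 t ht
    have hcl := hs.stek hk
    have he := energy hG hg hGg hc le_rfl le_rfl ht (hcl.mono fun x hx => lt_of_lt_of_le hN hx.1)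
      (M := M) (fun s hs' => hfb k hk s hs'.1)
    have i1 : ‖St k w N‖ ≤ W := by
      apply St_bound hk
      refine Eventually.of_forall fun s hs' => (hW1 s ⟨hs'.1.le, by linarith [hs'.2]⟩).trans
        (le_max_left _ _)
    have i2 : ‖St k p N‖ ≤ W := by
      apply St_bound hk
      refine Eventually.of_forall fun s hs' => (hW2 s ⟨hs'.1.le, by linarith [hs'.2]⟩).trans
        (le_max_right _ _)
    have i3 : ‖St k w N‖ ^ 2 + ‖St k p N‖ ^ 2 ≤ 2 * W ^ 2 := by
      have j1 := pow_le_pow_left₀ (norm_nonneg _) i1 2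
      have j2 := pow_le_pow_left₀ (norm_nonneg _) i2 2
      linarith
    have i4 : Real.exp (-delC g c c * (t - N)) ≤ 1 := by
      apply Real.exp_le_one_iff.2
      have : 0 ≤ delC g c c * (t - N) := mul_nonneg hδ.le (by linarith)
      linarith
    have i5 : 4 * Real.exp (-delC g c c * (t - N)) * (‖St k w N‖ ^ 2 + ‖St k p N‖ ^ 2) ≤
        8 * W ^ 2 := by
      calc _ ≤ 4 * 1 * (2 * W ^ 2) := by gcongr
        _ = _ := by ring
    have i6 : ‖St k w t‖ ^ 2 + ‖St k p t‖ ^ 2 ≤ R ^ 2 := by rw [hR2]; linarith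
    constructor
    · apply le_of_sq_le_sq _ hR0
      nlinarith [sq_nonneg ‖St k p t‖]
    · apply le_of_sq_le_sq _ hR0
      nlinarith [sq_nonneg ‖St k w t‖]
  -- the cutoff
  set η' := η / (K + 1) with hη'
  have hη'0 : 0 < η' := by positivity
  have hKη : K * η' ≤ η := by
    rw [hη', mul_div_assoc', div_le_iff₀ (by linarith)]
    nlinarith
  set Q := (2 + (1 + c) * g) * R with hQ
  have hQ0 : 0 ≤ Q := by positivity
  set m := η' / (Q + 1) with hmd
  have hm0 : 0 < m := by positivity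
  have hmQ : m * Q ≤ η' := by
    rw [hmd, div_mul_eq_mul_div, div_le_iff₀ (by linarith)]
    nlinarith
  obtain ⟨χ, χ1, χ2, b, hNb, hcut, z0, z1⟩ := exists_cut_up m N hm0
  have hχ : Continuous χ := continuous_iff_continuousAt.2 fun x => (hcut.d1 x).continuousAt
  have hχ1 : Continuous χ1 := continuous_iff_continuousAt.2 fun x => (hcut.d2 x).continuousAt
  have hχ2 := hcut.c2
  have main : ∀ k : ℝ, 0 < k → k ≤ 1 → ∀ t, b ≤ t → ‖St k p t‖ ≤ K * M + η := by
    intro k hk hk1 t ht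
    have hcl := (hs.stek hk).cut hcut
    have hz : ∀ t ≤ N, χ t • St k w t = 0 ∧ χ t • St k p t + χ1 t • G (St k w t) = 0 ∧
        χ t • St k f t + (2 : ℝ) • χ1 t • St k p t + (χ2 t + c * χ1 t) • G (St k w t) = 0 := by
      intro t ht
      obtain ⟨e1, e2, e3⟩ := z0 t ht
      rw [e1, e2, e3]
      simp
    have hcl2 := ClOn.extend hN hcl (fun t ht => hz t ht.le)
    have hfc : Continuous fun t => χ t • St k f t + (2 : ℝ) • χ1 t • St k p t +
        (χ2 t + c * χ1 t) • G (St k w t) := by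
      rw [continuous_iff_continuousAt]
      intro t
      rcases lt_or_ge t N with h' | h'
      · have hev : (fun t => χ t • St k f t + (2 : ℝ) • χ1 t • St k p t +
            (χ2 t + c * χ1 t) • G (St k w t)) =ᶠ[𝓝 t] fun _ => 0 := by
          filter_upwards [Iio_mem_nhds h'] with x hx
          exact (hz x (le_of_lt hx)).2.2
        exact continuousAt_const.congr hev.symm
      · have ht0 : 0 < t := by linarith
        have c1 : ContinuousAt (St k f) t := St_continuousAt hk hs.fi ht0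
        have c2 : ContinuousAt (St k p) t := (St_hasDerivAt hk hs.cp ht0).continuousAt
        have c3 : ContinuousAt (St k w) t := (St_hasDerivAt hk hs.cw ht0).continuousAt
        have c4 : ContinuousAt (fun t => G (St k w t)) t :=
          G.continuous.continuousAt.comp c3
        exact ((hχ.continuousAt.smul c1).add
          ((hχ1.continuousAt.smul c2).const_smul (2 : ℝ))).add
          ((hχ2.continuousAt.add (continuousAt_const.mul hχ1.continuousAt)).smul c4)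
    have hb : ∀ t, ‖χ t • St k f t + (2 : ℝ) • χ1 t • St k p t +
        (χ2 t + c * χ1 t) • G (St k w t)‖ ≤ M + η' := by
      intro t
      rcases le_total t N with h' | h'
      · rw [(hz t h').2.2, norm_zero]; linarith
      · obtain ⟨b1, b2⟩ := hbd k hk hk1 t h'
        have := cut_force_bound hg hGg hc.le (hcut.r t) (hcut.b1 t) (hcut.b2 t) b1 b2
          (hfb k hk t h')
        linarith
    have hfin := h _ _ _ N t (M + η') hcl2 hfc hz hb
    obtain ⟨e1, e2, e3⟩ := z1 t ht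
    rw [e1, e2, one_smul, zero_smul, add_zero] at hfin
    nlinarith
  refine ⟨b, fun t ht => ?_⟩
  have ht0 : 0 < t := by linarith
  have hlim := (St_tendsto hs.cp ht0).norm
  refine le_of_tendsto hlim (Eventually.of_forall fun n => ?_)
  apply main _ (by positivity) _ t ht
  rw [div_le_one (by positivity)]
  have : (0 : ℝ) ≤ n := Nat.cast_nonneg n
  linarith

/-- periodisation is locally a translate -/
theorem per_local {τ a0 t1 b : ℝ} (hτ : 0 < τ) (hτ1 : 1 ≤ τ) (ha : a0 + 1 ≤ t1) (hb : b + 1 ≤ a0 + τ)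
    (t0 : ℝ) : ∃ n : ℤ, ∀ g : ℝ → H, (∀ t ≤ t1, g t = 0) → (∀ t, b ≤ t → g t = 0) →
      ∀ t, |t - t0| < 1 / 2 → g (toIcoMod hτ a0 t) = g (t - n • τ) := by
  refine ⟨toIcoDiv hτ a0 t0, fun g h1 h2 t ht => ?_⟩
  set n := toIcoDiv hτ a0 t0 with hn
  have hmem : t0 - n • τ ∈ Set.Ico a0 (a0 + τ) := sub_toIcoDiv_zsmul_mem_Ico hτ a0 t0
  rw [zsmul_eq_mul] at hmem ⊢
  rw [abs_lt] at ht
  obtain ⟨hm1, hm2⟩ := hmem
  rcases lt_or_ge (t - n * τ) a0 with h' | h'
  · have e : toIcoMod hτ a0 t = t - n * τ + τ := by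
      rw [toIcoMod_eq_iff]
      refine ⟨⟨?_, by linarith⟩, n - 1, ?_⟩
      · by_contra hcon
        rw [not_le] at hcon
        linarith [ht.1]
      · rw [zsmul_eq_mul]; push_cast; ring
    rw [e, h1 (t - n * τ) (by linarith), h2 _ (by linarith [ht.1])]
  rcases lt_or_ge (t - n * τ) (a0 + τ) with h'' | h''
  · have e : toIcoMod hτ a0 t = t - n * τ := by
      rw [toIcoMod_eq_iff]
      refine ⟨⟨h', h''⟩, n, ?_⟩
      rw [zsmul_eq_mul]; ring
    rw [e]
  · have e : toIcoMod hτ a0 t = t - n * τ - τ := by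
      rw [toIcoMod_eq_iff]
      refine ⟨⟨by linarith, ?_⟩, n + 1, ?_⟩
      · by_contra hcon
        rw [not_lt] at hcon
        linarith [ht.2]
      · rw [zsmul_eq_mul]; push_cast; ring
    rw [e, h2 (t - n * τ) (by linarith), h1 _ (by linarith [ht.2])]

theorem admI_kapF {G : H →L[ℝ] H} (hG : ∀ x y, ⟪G x, y⟫ = ⟪x, G y⟫) {g c K : ℝ} (hg : 0 ≤ g)
    (hGg : ∀ x, ‖G x‖ ≤ g * ‖x‖) (hc : 0 < c) (hK : 0 ≤ K) (h : AdmI G c K) : KapF G c K := by
  intro w p f t1 T M hs hf h0 hM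
  have hM0 : 0 ≤ M := (norm_nonneg _).trans (hM T)
  rcases le_total T t1 with hT | hT
  · rw [(h0 T hT).2.1, norm_zero]; positivity
  have hbd : ∀ t, ‖w t‖ ≤ RC g c c * M ∧ ‖p t‖ ≤ RC g c c * M := fun t =>
    sol_bound hG hg hGg hc le_rfl le_rfl hs h0 (T := t) (fun s _ => hM s) le_rfl
  have hRC := RC_nonneg g c c
  set R := RC g c c * M with hR
  have hR0 : 0 ≤ R := mul_nonneg hRC hM0
  -- it suffices to prove the bound up to an error
  have main : ∀ η > 0, ‖p T‖ ≤ K * (M + η) + η := by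
    intro η hη
    set Q := (2 + (1 + c) * g) * R with hQ
    have hQ0 : 0 ≤ Q := by positivity
    set m := η / (Q + 1) with hmd
    have hm0 : 0 < m := by positivity
    have hmQ : m * Q ≤ η := by
      rw [hmd, div_mul_eq_mul_div, div_le_iff₀ (by linarith)]
      nlinarith
    obtain ⟨χ, χ1, χ2, b, hTb, hcut, z0, z1⟩ := exists_cut_down m T hm0
    have hχ : Continuous χ := continuous_iff_continuousAt.2 fun x => (hcut.d1 x).continuousAt
    have hχ1 : Continuous χ1 := continuous_iff_continuousAt.2 fun x => (hcut.d2 x).continuousAt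
    have hχ2 := hcut.c2
    have hcl := hs.cut hcut
    have hwc := hs.cont_w
    have hpc := hs.cont_p
    let w' : ℝ → H := fun t => χ t • w t
    let p' : ℝ → H := fun t => χ t • p t + χ1 t • G (w t)
    let f' : ℝ → H := fun t => χ t • f t + (2 : ℝ) • χ1 t • p t + (χ2 t + c * χ1 t) • G (w t)
    have hcl' : ClOn G c w' p' f' Set.univ := hcl
    have hf' : Continuous f' := by
      change Continuous fun t => χ t • f t + (2 : ℝ) • χ1 t • p t + (χ2 t + c * χ1 t) • G (w t)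
      fun_prop
    have hl : ∀ t ≤ t1, w' t = 0 ∧ p' t = 0 ∧ f' t = 0 := by
      intro t ht
      obtain ⟨y1, y2, y3⟩ := h0 t ht
      refine ⟨?_, ?_, ?_⟩
      · change χ t • w t = 0
        rw [y1, smul_zero]
      · change χ t • p t + χ1 t • G (w t) = 0
        rw [y1, y2]; simp
      · change χ t • f t + (2 : ℝ) • χ1 t • p t + (χ2 t + c * χ1 t) • G (w t) = 0
        rw [y1, y2, y3]; simp
    have hr : ∀ t, b ≤ t → w' t = 0 ∧ p' t = 0 ∧ f' t = 0 := by
      intro t ht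
      obtain ⟨y1, y2, y3⟩ := z1 t ht
      refine ⟨?_, ?_, ?_⟩
      · change χ t • w t = 0
        rw [y1, zero_smul]
      · change χ t • p t + χ1 t • G (w t) = 0
        rw [y1, y2]; simp
      · change χ t • f t + (2 : ℝ) • χ1 t • p t + (χ2 t + c * χ1 t) • G (w t) = 0
        rw [y1, y2, y3]; simp
    have hfb : ∀ t, ‖f' t‖ ≤ M + η := by
      intro t
      have := cut_force_bound hg hGg hc.le (hcut.r t) (hcut.b1 t) (hcut.b2 t) (hbd t).1 (hbd t).2
        (hM t)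
      change ‖χ t • f t + (2 : ℝ) • χ1 t • p t + (χ2 t + c * χ1 t) • G (w t)‖ ≤ M + η
      linarith
    have hpT : p' T = p T := by
      obtain ⟨y1, y2, y3⟩ := z0 T le_rfl
      change χ T • p T + χ1 T • G (w T) = p T
      rw [y1, y2]; simp
    -- periodise
    set a0 := t1 - 1 with ha0
    set τ := b - t1 + 2 with hτd
    have hτ : 0 < τ := by rw [hτd]; linarith
    have hloc := fun t0 => per_local (H := H) (t1 := t1) (b := b) (a0 := a0) hτ (by linarith)
      (by linarith) (by linarith) t0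
    have hev : ∀ t0 (n : ℤ), (∀ g : ℝ → H, (∀ t ≤ t1, g t = 0) → (∀ t, b ≤ t → g t = 0) →
        ∀ t, |t - t0| < 1 / 2 → g (toIcoMod hτ a0 t) = g (t - n • τ)) →
        ∀ g : ℝ → H, (∀ t ≤ t1, g t = 0) → (∀ t, b ≤ t → g t = 0) →
        (fun t => g (toIcoMod hτ a0 t)) =ᶠ[𝓝 t0] fun t => g (t - n • τ) := by
      intro t0 n hn g hg1 hg2
      have : Metric.ball t0 (1 / 2) ∈ 𝓝 t0 := Metric.ball_mem_nhds _ (by norm_num)
      filter_upwards [this] with x hx
      apply hn g hg1 hg2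
      rwa [Metric.mem_ball, Real.dist_eq] at hx
    have hP : ClOn G c (fun t => w' (toIcoMod hτ a0 t)) (fun t => p' (toIcoMod hτ a0 t))
        (fun t => f' (toIcoMod hτ a0 t)) Set.univ := by
      intro t0 _
      obtain ⟨n, hn⟩ := hloc t0
      obtain ⟨dw, dp, h1, h2, e1, e2⟩ := hcl' (t0 - n • τ) (Set.mem_univ _)
      have ew := hev t0 n hn w' (fun t ht => (hl t ht).1) (fun t ht => (hr t ht).1)
      have ep := hev t0 n hn p' (fun t ht => (hl t ht).2.1) (fun t ht => (hr t ht).2.1)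
      have ef := hev t0 n hn f' (fun t ht => (hl t ht).2.2) (fun t ht => (hr t ht).2.2)
      refine ⟨dw, dp, ?_, ?_, ?_, ?_⟩
      · exact (h1.comp_sub_const t0 (n • τ)).congr_of_eventuallyEq ew
      · exact (h2.comp_sub_const t0 (n • τ)).congr_of_eventuallyEq ep
      · rw [e1]; exact ep.eq_of_nhds.symm
      · rw [e2]
        have x1 := ew.eq_of_nhds
        have x2 := ep.eq_of_nhds
        have x3 := ef.eq_of_nhds
        simp only at x1 x2 x3 ⊢
        rw [x1, x2, x3]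
    have hfP : Continuous fun t => f' (toIcoMod hτ a0 t) := by
      rw [continuous_iff_continuousAt]
      intro t0
      obtain ⟨n, hn⟩ := hloc t0
      have ef := hev t0 n hn f' (fun t ht => (hl t ht).2.2) (fun t ht => (hr t ht).2.2)
      refine ContinuousAt.congr ?_ ef.symm
      fun_prop
    obtain ⟨N', hN'⟩ := h _ _ _ (hP.intOn hfP 0) 1 (M + η) one_pos (by linarith)
      (Eventually.of_forall fun t _ => hfb _) η hη
    obtain ⟨n, hn⟩ := exists_nat_ge ((N' - T) / τ)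
    have hle : N' ≤ T + n * τ := by
      rw [div_le_iff₀ hτ] at hn
      linarith
    have hfin := hN' (T + n * τ) hle
    have e : toIcoMod hτ a0 (T + n * τ) = T := by
      rw [toIcoMod_eq_iff]
      refine ⟨⟨by linarith, by linarith⟩, n, ?_⟩
      simp
    simp only [e, hpT] at hfin
    exact hfin
  have hlim : Tendsto (fun n : ℕ => K * (M + 1 / ((n : ℝ) + 1)) + 1 / ((n : ℝ) + 1)) atTop
      (𝓝 (K * (M + 0) + 0)) := by
    have h0 := tendsto_one_div_add_atTop_nhds_zero_nat (𝕜 := ℝ)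
    exact ((h0.const_add M).const_mul K).add h0
  rw [add_zero, add_zero] at hlim
  exact ge_of_tendsto hlim (Eventually.of_forall fun n => main _ (by positivity))

theorem admI_mono {G : H →L[ℝ] H} (hG : ∀ x y, ⟪G x, y⟫ = ⟪x, G y⟫)
    (hi : ∀ x, G x = 0 → x = 0) {ca cb K : ℝ} (hca : 0 < ca) (hab : ca < cb) (hK : 0 ≤ K)
    (h : AdmI G ca K) : AdmI G cb K := by
  have hg : (0 : ℝ) ≤ ‖G‖ := norm_nonneg _
  have hGg : ∀ x, ‖G x‖ ≤ ‖G‖ * ‖x‖ := G.le_opNorm
  have h1 := admI_kapF hG hg hGg hca hK h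
  have h2 := kapF_kapH hG hi hca.le h1
  have h3 := kap_mono hG hg hGg hca hab hK h2
  have h4 : KapF G cb K := fun w p f t1 T M a1 a2 a3 a4 => h3 w p f t1 T M a1 a2 a3 fun t _ => a4 t
  exact kapF_admI hG hg hGg (hca.trans hab) hK h4

theorem admI_exists {G : H →L[ℝ] H} (hG : ∀ x y, ⟪G x, y⟫ = ⟪x, G y⟫) {c : ℝ} (hc : 0 < c) :
    ∃ K, 0 ≤ K ∧ AdmI G c K := by
  have hg : (0 : ℝ) ≤ ‖G‖ := norm_nonneg _
  have hGg : ∀ x, ‖G x‖ ≤ ‖G‖ * ‖x‖ := G.le_opNorm
  refine ⟨RC ‖G‖ c c, RC_nonneg _ _ _, ?_⟩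
  apply kapF_admI hG hg hGg hc (RC_nonneg _ _ _)
  intro w p f t1 T M a1 a2 a3 a4
  exact (sol_bound hG hg hGg hc le_rfl le_rfl a1 a3 (T := T) (fun t _ => a4 t) le_rfl).2

end Pool.Agent.H54.Damp
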