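import Pool.Agent.H54.Damp.Cut

set_option autoImplicit false
set_option linter.unusedSectionVars false

open scoped RealInnerProductSpace
open MeasureTheory

namespace Pool.Agent.H54.Damp

variable {H : Type*} [NormedAddCommGroup H] [InnerProductSpace ℝ H] [CompleteSpace H]

/-- causal convolution with an exponential -/
noncomputable def Ig (ν t1 : ℝ) (g : ℝ → H) (t : ℝ) : H :=
  ∫ s in t1..t, Real.exp (-ν * (t - s)) • g s

theorem Ig_eq (ν t1 : ℝ) (g : ℝ → H) (t : ℝ) :
    Ig ν t1 g t = Real.exp (-ν * t) • ∫ s in t1..t, Real.exp (ν * s) • g s := by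
  unfold Ig
  rw [← intervalIntegral.integral_smul]
  apply intervalIntegral.integral_congr
  intro s _
  simp only
  rw [smul_smul, ← Real.exp_add]
  congr 2
  ring

theorem Ig_hasDerivAt (ν t1 : ℝ) {g : ℝ → H} (hg : Continuous g) (t : ℝ) :
    HasDerivAt (Ig ν t1 g) (g t - ν • Ig ν t1 g t) t := by
  have hc : Continuous fun s => Real.exp (ν * s) • g s := by fun_prop
  have h1 : HasDerivAt (fun t => ∫ s in t1..t, Real.exp (ν * s) • g s)
      (Real.exp (ν * t) • g t) t :=
    intervalIntegral.integral_hasDerivAt_right (hc.intervalIntegrable _ _)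
      hc.aestronglyMeasurable.stronglyMeasurableAtFilter hc.continuousAt
  have h2 : HasDerivAt (fun t => Real.exp (-ν * t)) (Real.exp (-ν * t) * (-ν * 1)) t :=
    ((hasDerivAt_id t).const_mul (-ν)).exp
  have h3 := h2.smul h1
  have e : Ig ν t1 g = fun t => Real.exp (-ν * t) • ∫ s in t1..t, Real.exp (ν * s) • g s := by
    funext t; exact Ig_eq ν t1 g t
  rw [e]
  refine h3.congr_deriv ?_
  have e1 : Real.exp (-ν * t) • (Real.exp (ν * t) • g t) = g t := by
    rw [smul_smul, ← Real.exp_add]; simp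
  rw [e1]
  module

theorem Ig_continuous (ν t1 : ℝ) {g : ℝ → H} (hg : Continuous g) : Continuous (Ig ν t1 g) :=
  continuous_iff_continuousAt.2 fun t => (Ig_hasDerivAt ν t1 hg t).continuousAt

theorem Ig_zero (ν t1 : ℝ) {g : ℝ → H} (hg : ∀ t ≤ t1, g t = 0) {t : ℝ} (ht : t ≤ t1) :
    Ig ν t1 g t = 0 := by
  unfold Ig
  rw [intervalIntegral.integral_symm]
  rw [intervalIntegral.integral_congr (g := fun _ => (0 : H))]
  · simp
  · intro s hs
    rw [Set.uIcc_of_le ht] at hs
    simp only [hg s hs.2, smul_zero]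

theorem Ig_map (G : H →L[ℝ] H) (ν t1 : ℝ) {g : ℝ → H} (hg : Continuous g) (t : ℝ) :
    G (Ig ν t1 g t) = Ig ν t1 (fun s => G (g s)) t := by
  unfold Ig
  rw [← ContinuousLinearMap.intervalIntegral_comp_comm]
  · simp only [map_smul]
  · apply Continuous.intervalIntegrable
    fun_prop

theorem Ig_split (ν t1 : ℝ) {g : ℝ → H} (hg : Continuous g) (t T : ℝ) :
    Ig ν t1 g T = Real.exp (-ν * (T - t)) • Ig ν t1 g t + Ig ν t g T := by
  have hc : Continuous fun s => Real.exp (ν * s) • g s := by fun_prop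
  rw [Ig_eq, Ig_eq, Ig_eq, ← intervalIntegral.integral_add_adjacent_intervals
    (hc.intervalIntegrable t1 t) (hc.intervalIntegrable t T), smul_add, smul_smul, ← Real.exp_add]
  congr 3
  ring_nf

theorem exp_integral {σ : ℝ} (hσ : 0 < σ) (a t : ℝ) :
    ∫ s in a..t, Real.exp (-σ * (t - s)) = (1 - Real.exp (-σ * (t - a))) / σ := by
  have h : ∀ s ∈ Set.uIcc a t, HasDerivAt (fun s => Real.exp (-σ * (t - s)) / σ)
      (Real.exp (-σ * (t - s))) s := by
    intro s _
    have h1 : HasDerivAt (fun s => -σ * (t - s)) (-σ * (-1)) s :=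
      ((hasDerivAt_id s).const_sub t).const_mul (-σ)
    have h2 := h1.exp.div_const σ
    refine h2.congr_deriv ?_
    field_simp
  rw [intervalIntegral.integral_eq_sub_of_hasDerivAt h]
  · simp only [sub_self, mul_zero, Real.exp_zero]
    ring
  · apply Continuous.intervalIntegrable
    fun_prop

theorem Ig_bound {ν e N a t T : ℝ} (hσ : 0 < ν + e) (hat : a ≤ t) {g : ℝ → H}
    (hN : ∀ s ∈ Set.Icc a t, ‖g s‖ ≤ N * Real.exp (-e * (T - s))) :
    ‖Ig ν a g t‖ ≤ N * Real.exp (-e * (T - t)) * ((1 - Real.exp (-(ν + e) * (t - a))) / (ν + e)) := by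
  rw [← exp_integral hσ, ← intervalIntegral.integral_const_mul]
  unfold Ig
  apply intervalIntegral.norm_integral_le_of_norm_le hat
  · refine Filter.Eventually.of_forall ?_
    intro s hs
    rw [norm_smul, Real.norm_of_nonneg (Real.exp_pos _).le]
    calc Real.exp (-ν * (t - s)) * ‖g s‖ ≤
          Real.exp (-ν * (t - s)) * (N * Real.exp (-e * (T - s))) :=
            mul_le_mul_of_nonneg_left (hN s ⟨hs.1.le, hs.2⟩) (Real.exp_pos _).le
      _ = N * (Real.exp (-ν * (t - s)) * Real.exp (-e * (T - s))) := by ring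
      _ = N * (Real.exp (-e * (T - t)) * Real.exp (-(ν + e) * (t - s))) := by
          rw [← Real.exp_add, ← Real.exp_add]; congr 2; ring
      _ = _ := by ring
  · apply Continuous.intervalIntegrable
    fun_prop

theorem Ig_bound' {ν e N a t T : ℝ} (hσ : 0 < ν + e) (hat : a ≤ t) {g : ℝ → H}
    (hN0 : 0 ≤ N) (hN : ∀ s ∈ Set.Icc a t, ‖g s‖ ≤ N * Real.exp (-e * (T - s))) :
    ‖Ig ν a g t‖ ≤ N * Real.exp (-e * (T - t)) / (ν + e) := by
  refine (Ig_bound hσ hat hN).trans ?_
  rw [div_eq_mul_one_div (N * Real.exp (-e * (T - t)))]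
  apply mul_le_mul_of_nonneg_left _ (by positivity)
  apply div_le_div_of_nonneg_right _ hσ.le
  have := Real.exp_pos (-(ν + e) * (t - a))
  linarith

end Pool.Agent.H54.Damp
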