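import Pool.Agent.H54.Damp.Energy

set_option autoImplicit false
set_option linter.unusedSectionVars false

open scoped RealInnerProductSpace

namespace Pool.Agent.H54.Damp

/-- a C^2 step function with its two derivatives -/
theorem exists_step : ∃ (s s1 s2 : ℝ → ℝ) (C : ℝ), (∀ x, HasDerivAt s (s1 x) x) ∧
    (∀ x, HasDerivAt s1 (s2 x) x) ∧ Continuous s2 ∧ (∀ x, 0 ≤ s x ∧ s x ≤ 1) ∧
    (∀ x ≤ 0, s x = 0 ∧ s1 x = 0 ∧ s2 x = 0) ∧ (∀ x, 1 ≤ x → s x = 1 ∧ s1 x = 0 ∧ s2 x = 0) ∧
    0 ≤ C ∧ (∀ x, |s1 x| ≤ C) ∧ (∀ x, |s2 x| ≤ C) := by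
  have hc : ContDiff ℝ 3 Real.smoothTransition := Real.smoothTransition.contDiff (n := 3)
  have hc1 : ContDiff ℝ 2 (deriv Real.smoothTransition) := by
    have : ContDiff ℝ (2 + 1) Real.smoothTransition := by norm_num; exact hc
    exact (contDiff_succ_iff_deriv.1 this).2.2
  have hc2 : ContDiff ℝ 1 (deriv (deriv Real.smoothTransition)) := by
    have : ContDiff ℝ (1 + 1) (deriv Real.smoothTransition) := by norm_num; exact hc1
    exact (contDiff_succ_iff_deriv.1 this).2.2
  have hd1 : ∀ x, HasDerivAt Real.smoothTransition (deriv Real.smoothTransition x) x :=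
    fun x => (hc.differentiable (by norm_num)).differentiableAt.hasDerivAt
  have hd2 : ∀ x, HasDerivAt (deriv Real.smoothTransition)
      (deriv (deriv Real.smoothTransition) x) x :=
    fun x => (hc1.differentiable (by norm_num)).differentiableAt.hasDerivAt
  -- vanishing
  have z1 : ∀ x < 0, deriv Real.smoothTransition x = 0 := by
    intro x hx
    have : Real.smoothTransition =ᶠ[nhds x] fun _ => 0 := by
      filter_upwards [Iio_mem_nhds hx] with y hy
      exact Real.smoothTransition.zero_of_nonpos (le_of_lt hy)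
    rw [this.deriv_eq]; simp
  have z1' : ∀ x ≤ 0, deriv Real.smoothTransition x = 0 := by
    intro x hx
    have hcl : IsClosed {x | deriv Real.smoothTransition x = 0} :=
      isClosed_eq hc1.continuous continuous_const
    have h0 : Set.Iio (0 : ℝ) ⊆ {x | deriv Real.smoothTransition x = 0} := fun y hy => z1 y hy
    have h1 := hcl.closure_subset_iff.2 h0
    rw [closure_Iio] at h1
    exact h1 hx
  have o1 : ∀ x > 1, deriv Real.smoothTransition x = 0 := by
    intro x hx
    have : Real.smoothTransition =ᶠ[nhds x] fun _ => 1 := by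
      filter_upwards [Ioi_mem_nhds hx] with y hy
      exact Real.smoothTransition.one_of_one_le (le_of_lt hy)
    rw [this.deriv_eq]; simp
  have o1' : ∀ x, 1 ≤ x → deriv Real.smoothTransition x = 0 := by
    intro x hx
    have hcl : IsClosed {x | deriv Real.smoothTransition x = 0} :=
      isClosed_eq hc1.continuous continuous_const
    have h0 : Set.Ioi (1 : ℝ) ⊆ {x | deriv Real.smoothTransition x = 0} := fun y hy => o1 y hy
    have h1 := hcl.closure_subset_iff.2 h0
    rw [closure_Ioi] at h1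
    exact h1 hx
  have z2' : ∀ x ≤ 0, deriv (deriv Real.smoothTransition) x = 0 := by
    intro x hx
    have hcl : IsClosed {x | deriv (deriv Real.smoothTransition) x = 0} :=
      isClosed_eq hc2.continuous continuous_const
    have h0 : Set.Iio (0 : ℝ) ⊆ {x | deriv (deriv Real.smoothTransition) x = 0} := by
      intro y hy
      have : deriv Real.smoothTransition =ᶠ[nhds y] fun _ => 0 := by
        filter_upwards [Iio_mem_nhds hy] with y hy
        exact z1 y hy
      change deriv (deriv Real.smoothTransition) y = 0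
      rw [this.deriv_eq]; simp
    have h1 := hcl.closure_subset_iff.2 h0
    rw [closure_Iio] at h1
    exact h1 hx
  have o2' : ∀ x, 1 ≤ x → deriv (deriv Real.smoothTransition) x = 0 := by
    intro x hx
    have hcl : IsClosed {x | deriv (deriv Real.smoothTransition) x = 0} :=
      isClosed_eq hc2.continuous continuous_const
    have h0 : Set.Ioi (1 : ℝ) ⊆ {x | deriv (deriv Real.smoothTransition) x = 0} := by
      intro y hy
      have : deriv Real.smoothTransition =ᶠ[nhds y] fun _ => 0 := by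
        filter_upwards [Ioi_mem_nhds hy] with y hy
        exact o1 y hy
      change deriv (deriv Real.smoothTransition) y = 0
      rw [this.deriv_eq]; simp
    have h1 := hcl.closure_subset_iff.2 h0
    rw [closure_Ioi] at h1
    exact h1 hx
  obtain ⟨C1, hC1⟩ := isCompact_Icc.exists_bound_of_continuousOn (s := Set.Icc (0 : ℝ) 1)
    hc1.continuous.continuousOn
  obtain ⟨C2, hC2⟩ := isCompact_Icc.exists_bound_of_continuousOn (s := Set.Icc (0 : ℝ) 1)
    hc2.continuous.continuousOn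
  refine ⟨Real.smoothTransition, deriv Real.smoothTransition, deriv (deriv Real.smoothTransition),
    max (max C1 C2) 0, hd1, hd2, hc2.continuous,
    fun x => ⟨Real.smoothTransition.nonneg x, Real.smoothTransition.le_one x⟩,
    fun x hx => ⟨Real.smoothTransition.zero_of_nonpos hx, z1' x hx, z2' x hx⟩,
    fun x hx => ⟨Real.smoothTransition.one_of_one_le hx, o1' x hx, o2' x hx⟩,
    le_max_right _ _, ?_, ?_⟩
  · intro x
    rcases le_or_gt x 0 with h | h
    · rw [z1' x h, abs_zero]; exact le_max_right _ _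
    rcases le_or_gt 1 x with h' | h'
    · rw [o1' x h', abs_zero]; exact le_max_right _ _
    · exact (hC1 x ⟨h.le, h'.le⟩).trans ((le_max_left _ _).trans (le_max_left _ _))
  · intro x
    rcases le_or_gt x 0 with h | h
    · rw [z2' x h, abs_zero]; exact le_max_right _ _
    rcases le_or_gt 1 x with h' | h'
    · rw [o2' x h', abs_zero]; exact le_max_right _ _
    · exact (hC2 x ⟨h.le, h'.le⟩).trans ((le_max_right _ _).trans (le_max_left _ _))

/-- data of a C^2 cutoff function -/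
structure Cut (χ χ1 χ2 : ℝ → ℝ) (m : ℝ) : Prop where
  d1 : ∀ x, HasDerivAt χ (χ1 x) x
  d2 : ∀ x, HasDerivAt χ1 (χ2 x) x
  c2 : Continuous χ2
  r : ∀ x, 0 ≤ χ x ∧ χ x ≤ 1
  b1 : ∀ x, |χ1 x| ≤ m
  b2 : ∀ x, |χ2 x| ≤ m

theorem Cut.mnonneg {χ χ1 χ2 : ℝ → ℝ} {m : ℝ} (h : Cut χ χ1 χ2 m) : 0 ≤ m :=
  (abs_nonneg _).trans (h.b1 0)

/-- slowly increasing cutoff: `0` before `a`, `1` after some `b` -/
theorem exists_cut_up (m a : ℝ) (hm : 0 < m) : ∃ (χ χ1 χ2 : ℝ → ℝ) (b : ℝ), a < b ∧
    Cut χ χ1 χ2 m ∧ (∀ x ≤ a, χ x = 0 ∧ χ1 x = 0 ∧ χ2 x = 0) ∧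
    (∀ x, b ≤ x → χ x = 1 ∧ χ1 x = 0 ∧ χ2 x = 0) := by
  obtain ⟨s, s1, s2, C, h1, h2, h3, h4, h5, h6, hC, h7, h8⟩ := exists_step
  set l : ℝ := max 1 (C / m) with hl
  have hl1 : 1 ≤ l := le_max_left _ _
  have hlC : C / m ≤ l := le_max_right _ _
  have hlpos : 0 < l := by linarith
  have hCl : C / l ≤ m := by
    rw [div_le_iff₀ hm] at hlC
    rw [div_le_iff₀ hlpos]; linarith
  have hCl2 : C / l ^ 2 ≤ m := by
    refine le_trans ?_ hCl
    apply div_le_div_of_nonneg_left hC hlpos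
    nlinarith
  have hlin : ∀ x, HasDerivAt (fun x => (x - a) / l) (1 / l) x := fun x =>
    ((hasDerivAt_id x).sub_const a).div_const l
  refine ⟨fun x => s ((x - a) / l), fun x => s1 ((x - a) / l) * (1 / l),
    fun x => s2 ((x - a) / l) * (1 / l) * (1 / l), a + l, by linarith, ?_, ?_, ?_⟩
  · refine ⟨?_, ?_, ?_, ?_, ?_, ?_⟩
    · intro x
      exact (h1 ((x - a) / l)).comp x (hlin x)
    · intro x
      exact ((h2 ((x - a) / l)).comp x (hlin x)).mul_const (1 / l)
    · fun_prop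
    · intro x; exact h4 _
    · intro x
      rw [abs_mul, abs_of_pos (by positivity : 0 < 1 / l)]
      calc |s1 ((x - a) / l)| * (1 / l) ≤ C * (1 / l) :=
            mul_le_mul_of_nonneg_right (h7 _) (by positivity)
        _ = C / l := by ring
        _ ≤ m := hCl
    · intro x
      rw [abs_mul, abs_mul, abs_of_pos (by positivity : 0 < 1 / l)]
      calc |s2 ((x - a) / l)| * (1 / l) * (1 / l) ≤ C * (1 / l) * (1 / l) := by
            apply mul_le_mul_of_nonneg_right _ (by positivity)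
            exact mul_le_mul_of_nonneg_right (h8 _) (by positivity)
        _ = C / l ^ 2 := by field_simp
        _ ≤ m := hCl2
  · intro x hx
    have h : (x - a) / l ≤ 0 := div_nonpos_of_nonpos_of_nonneg (by linarith) hlpos.le
    obtain ⟨e1, e2, e3⟩ := h5 _ h
    refine ⟨e1, ?_, ?_⟩
    · simp only [e2, zero_mul]
    · simp only [e3, zero_mul]
  · intro x hx
    have h : 1 ≤ (x - a) / l := by rw [le_div_iff₀ hlpos]; linarith
    obtain ⟨e1, e2, e3⟩ := h6 _ h
    refine ⟨e1, ?_, ?_⟩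
    · simp only [e2, zero_mul]
    · simp only [e3, zero_mul]

/-- slowly decreasing cutoff -/
theorem exists_cut_down (m a : ℝ) (hm : 0 < m) : ∃ (χ χ1 χ2 : ℝ → ℝ) (b : ℝ), a < b ∧
    Cut χ χ1 χ2 m ∧ (∀ x ≤ a, χ x = 1 ∧ χ1 x = 0 ∧ χ2 x = 0) ∧
    (∀ x, b ≤ x → χ x = 0 ∧ χ1 x = 0 ∧ χ2 x = 0) := by
  obtain ⟨χ, χ1, χ2, b, hab, hc, h1, h2⟩ := exists_cut_up m a hm
  refine ⟨fun x => 1 - χ x, fun x => -χ1 x, fun x => -χ2 x, b, hab, ?_, ?_, ?_⟩
  · refine ⟨?_, ?_, hc.c2.neg, ?_, ?_, ?_⟩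
    · intro x
      exact (hc.d1 x).const_sub 1
    · intro x; exact (hc.d2 x).neg
    · intro x; have := hc.r x; constructor <;> linarith
    · intro x; rw [abs_neg]; exact hc.b1 x
    · intro x; rw [abs_neg]; exact hc.b2 x
  · intro x hx
    obtain ⟨e1, e2, e3⟩ := h1 x hx
    refine ⟨?_, ?_, ?_⟩
    · simp only [e1, sub_zero]
    · simp only [e2, neg_zero]
    · simp only [e3, neg_zero]
  · intro x hx
    obtain ⟨e1, e2, e3⟩ := h2 x hx
    refine ⟨?_, ?_, ?_⟩
    · simp only [e1, sub_self]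
    · simp only [e2, neg_zero]
    · simp only [e3, neg_zero]

/-- increasing cutoff, reaching `1` at `b` -/
theorem exists_cut_up' (m b : ℝ) (hm : 0 < m) : ∃ (χ χ1 χ2 : ℝ → ℝ) (a : ℝ), a < b ∧
    Cut χ χ1 χ2 m ∧ (∀ x ≤ a, χ x = 0 ∧ χ1 x = 0 ∧ χ2 x = 0) ∧
    (∀ x, b ≤ x → χ x = 1 ∧ χ1 x = 0 ∧ χ2 x = 0) := by
  obtain ⟨χ, χ1, χ2, b', hab, hc, h1, h2⟩ := exists_cut_up m 0 hm
  have hs : ∀ x, HasDerivAt (fun x : ℝ => x - b + b') 1 x := fun x =>
    ((hasDerivAt_id x).sub_const b).add_const b'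
  refine ⟨fun x => χ (x - b + b'), fun x => χ1 (x - b + b'), fun x => χ2 (x - b + b'), b - b',
    by linarith, ?_, ?_, ?_⟩
  · refine ⟨?_, ?_, hc.c2.comp (by fun_prop), ?_, ?_, ?_⟩
    · intro x
      have := (hc.d1 (x - b + b')).comp x (hs x)
      rw [mul_one] at this
      exact this
    · intro x
      have := (hc.d2 (x - b + b')).comp x (hs x)
      rw [mul_one] at this
      exact this
    · intro x; exact hc.r _
    · intro x; exact hc.b1 _
    · intro x; exact hc.b2 _
  · intro x hx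
    exact h1 _ (by linarith)
  · intro x hx
    exact h2 _ (by linarith)

variable {H : Type*} [NormedAddCommGroup H] [InnerProductSpace ℝ H]

/-- multiplication of a classical solution by a cutoff -/
theorem ClOn.cut {G : H →L[ℝ] H} {c : ℝ} {w p f : ℝ → H} {s : Set ℝ} (h : ClOn G c w p f s)
    {χ χ1 χ2 : ℝ → ℝ} {m : ℝ} (hc : Cut χ χ1 χ2 m) :
    ClOn G c (fun t => χ t • w t) (fun t => χ t • p t + χ1 t • G (w t))
      (fun t => χ t • f t + (2 : ℝ) • χ1 t • p t + (χ2 t + c * χ1 t) • G (w t)) s := by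
  intro t ht
  obtain ⟨w', p', hw, hp, e1, e2⟩ := h t ht
  have d3 : HasDerivAt (fun s => G (w s)) (G w') t := G.hasFDerivAt.comp_hasDerivAt t hw
  refine ⟨_, _, (hc.d1 t).smul hw, ((hc.d1 t).smul hp).add ((hc.d2 t).smul d3), ?_, ?_⟩
  · simp only [map_add, map_smul, e1]
  · simp only [map_add, map_smul, e1, e2]
    module

end Pool.Agent.H54.Damp
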