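import Mathlib

/-!
The damped wave equation `u'' + c u' + A u = f` in a real Hilbert space and the optimal velocity
constant `K(A,c)`.
-/

set_option autoImplicit false

open scoped RealInnerProductSpace ENNReal
open MeasureTheory Filter

namespace Pool.Agent.H54.Damp

variable {H : Type*} [NormedAddCommGroup H] [InnerProductSpace ℝ H] [CompleteSpace H]

/-- `⟨A v, v⟩ ≥ b ‖v‖²` on the domain of `A`, for some `b > 0`. -/
def IsCoerciveOp (A : H →ₗ.[ℝ] H) : Prop :=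
  ∃ b > 0, ∀ v : A.domain, b * ‖(v : H)‖ ^ 2 ≤ ⟪A v, (v : H)⟫

/-- `S = A^{1/2}`: the operator `S` is self-adjoint and nonnegative, and `A = S ∘ S`
(with its natural domain). -/
def IsSqrtOf (S A : H →ₗ.[ℝ] H) : Prop :=
  IsSelfAdjoint S ∧ (∀ v : S.domain, 0 ≤ ⟪S v, (v : H)⟫) ∧
    ∀ x y : H, (x, y) ∈ A.graph ↔ ∃ z, (x, z) ∈ S.graph ∧ (z, y) ∈ S.graph

/-- `u` is a weak solution of `u'' + c u' + A u = f` on `(0,∞)` in the class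
`C⁰((0,∞), D(A^{1/2})) ∩ C¹((0,∞), H)`: `w(t) = A^{1/2} u(t)` and `u'(t)` are continuous, and
`⟨u'(t) - u'(s), φ⟩ = ∫_s^t (⟨f, φ⟩ - c ⟨u', φ⟩ - ⟨A^{1/2} u, A^{1/2} φ⟩)` for every `φ` in
`D(A^{1/2})` and all `0 < s ≤ t`. -/
def IsSolution (A : H →ₗ.[ℝ] H) (c : ℝ) (f u : ℝ → H) : Prop :=
  ∃ (S : H →ₗ.[ℝ] H) (w : ℝ → H), IsSqrtOf S A ∧
    (∀ t > 0, (u t, w t) ∈ S.graph) ∧ ContinuousOn w (Set.Ioi 0) ∧
    (∀ t > 0, DifferentiableAt ℝ u t) ∧ ContinuousOn (deriv u) (Set.Ioi 0) ∧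
    ∀ φ ψ : H, (φ, ψ) ∈ S.graph → ∀ s t : ℝ, 0 < s → s ≤ t →
      ⟪deriv u t - deriv u s, φ⟫ = ∫ r in s..t, (⟪f r, φ⟫ - c * ⟪deriv u r, φ⟫ - ⟪w r, ψ⟫)

/-- the essential upper limit of `‖f(t)‖` as `t → ∞` -/
noncomputable def limsupNorm (f : ℝ → H) : ℝ≥0∞ :=
  limsup (fun t => ‖f t‖ₑ) (atTop ⊓ ae volume)

/-- `K` is an admissible constant: for every forcing `f ∈ L¹_loc((0,∞),H)` which is eventually
bounded and every solution `u`, `limsup ‖u'(t)‖ ≤ K limsup ‖f(t)‖`. -/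
def IsAdmissible (A : H →ₗ.[ℝ] H) (c : ℝ) (K : ℝ≥0∞) : Prop :=
  ∀ f u : ℝ → H, LocallyIntegrableOn f (Set.Ioi 0) → limsupNorm f < ⊤ → IsSolution A c f u →
    limsup (fun t => ‖deriv u t‖ₑ) atTop ≤ K * limsupNorm f

/-- the optimal constant `K(A,c)` -/
noncomputable def optK (A : H →ₗ.[ℝ] H) (c : ℝ) : ℝ≥0∞ := sInf {K | IsAdmissible A c K}

end Pool.Agent.H54.Damp
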