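import Mathlib

set_option autoImplicit false
set_option linter.unusedSectionVars false

open scoped RealInnerProductSpace

namespace Pool.Agent.H54.Damp

variable {H : Type*} [NormedAddCommGroup H] [InnerProductSpace ℝ H]

/-- classical solution at the points of `s` -/
def ClOn (G : H →L[ℝ] H) (c : ℝ) (w p f : ℝ → H) (s : Set ℝ) : Prop :=
  ∀ t ∈ s, ∃ w' p', HasDerivAt w w' t ∧ HasDerivAt p p' t ∧ G w' = p t ∧
    G p' = -w t - c • G (p t) + G (f t)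

theorem ClOn.mono {G : H →L[ℝ] H} {c : ℝ} {w p f : ℝ → H} {s s' : Set ℝ}
    (h : ClOn G c w p f s) (hs : s' ⊆ s) : ClOn G c w p f s' := fun t ht => h t (hs ht)

theorem ClOn.continuousAt_w {G : H →L[ℝ] H} {c : ℝ} {w p f : ℝ → H} {s : Set ℝ}
    (h : ClOn G c w p f s) {t : ℝ} (ht : t ∈ s) : ContinuousAt w t := by
  obtain ⟨w', p', h1, h2, -⟩ := h t ht
  exact h1.continuousAt

theorem ClOn.continuousAt_p {G : H →L[ℝ] H} {c : ℝ} {w p f : ℝ → H} {s : Set ℝ}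
    (h : ClOn G c w p f s) {t : ℝ} (ht : t ∈ s) : ContinuousAt p t := by
  obtain ⟨w', p', h1, h2, -⟩ := h t ht
  exact h2.continuousAt

/-- constants -/
noncomputable def etaC (g c0 c1 : ℝ) : ℝ := min (1 / (2 * (g + 1))) (c0 / (4 * (1 + c1 ^ 2 * g ^ 2)))
noncomputable def delC (g c0 c1 : ℝ) : ℝ := min (c0 / 2) (etaC g c0 c1 / 2)
noncomputable def bC (g c0 c1 : ℝ) : ℝ := etaC g c0 c1 * g ^ 2 + 1 / c0

theorem etaC_pos {g c0 c1 : ℝ} (hg : 0 ≤ g) (hc0 : 0 < c0) : 0 < etaC g c0 c1 := by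
  unfold etaC
  apply lt_min
  · positivity
  · positivity

theorem delC_pos {g c0 c1 : ℝ} (hg : 0 ≤ g) (hc0 : 0 < c0) : 0 < delC g c0 c1 := by
  unfold delC
  apply lt_min
  · positivity
  · have := etaC_pos (c1 := c1) hg hc0
    positivity

theorem bC_pos {g c0 c1 : ℝ} (hg : 0 ≤ g) (hc0 : 0 < c0) : 0 < bC g c0 c1 := by
  unfold bC
  have := etaC_pos (c1 := c1) hg hc0
  positivity

theorem scalar_ineq {g c0 c1 c a b m : ℝ} (hg : 0 ≤ g) (hc0 : 0 < c0) (hc : c0 ≤ c) (hc1 : c ≤ c1)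
    (ha : 0 ≤ a) (hb : 0 ≤ b) (hm : 0 ≤ m) :
    -c * b ^ 2 + m * b + etaC g c0 c1 * (-a ^ 2 + c * (g * a * b) + g * a * m + b ^ 2) ≤
      -delC g c0 c1 * (a ^ 2 + b ^ 2) + bC g c0 c1 * m ^ 2 := by
  have hη := etaC_pos (c1 := c1) hg hc0
  set η := etaC g c0 c1 with hηd
  have hη2 : η ≤ c0 / (4 * (1 + c1 ^ 2 * g ^ 2)) := by rw [hηd]; exact min_le_right _ _
  have hη3 : η * (1 + c ^ 2 * g ^ 2) ≤ c / 4 := by
    have h1 : η * (4 * (1 + c1 ^ 2 * g ^ 2)) ≤ c0 := by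
      rwa [le_div_iff₀ (by positivity)] at hη2
    have h2 : c ^ 2 ≤ c1 ^ 2 := by nlinarith
    have h3 : c ^ 2 * g ^ 2 ≤ c1 ^ 2 * g ^ 2 := mul_le_mul_of_nonneg_right h2 (sq_nonneg g)
    nlinarith [mul_le_mul_of_nonneg_left h3 hη.le]
  have hd1 : delC g c0 c1 ≤ c0 / 2 := min_le_left _ _
  have hd2 : delC g c0 c1 ≤ η / 2 := min_le_right _ _
  have hcpos : 0 < c := by linarith
  have e1 : m * b ≤ c / 4 * b ^ 2 + m ^ 2 / c := by
    have h4 : m ^ 2 / c * c = m ^ 2 := by field_simp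
    have h5 : 0 ≤ (c / 2 * b - m) ^ 2 := sq_nonneg _
    have h6 : (c / 4 * b ^ 2 + m ^ 2 / c - m * b) * c = (c / 2 * b - m) ^ 2 := by
      have : (c / 4 * b ^ 2 + m ^ 2 / c - m * b) * c = c ^ 2 / 4 * b ^ 2 + m ^ 2 / c * c -
        m * b * c := by ring
      rw [this, h4]; ring
    have h7 : 0 ≤ (c / 4 * b ^ 2 + m ^ 2 / c - m * b) := by
      by_contra h
      rw [not_le] at h
      have := mul_neg_of_neg_of_pos h hcpos
      rw [h6] at this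
      linarith
    linarith
  have e1' : m ^ 2 / c ≤ 1 / c0 * m ^ 2 := by
    rw [div_eq_mul_one_div, mul_comm]
    exact mul_le_mul_of_nonneg_right (one_div_le_one_div_of_le hc0 hc) (sq_nonneg m)
  have e2 : c * (g * a * b) ≤ a ^ 2 / 4 + c ^ 2 * g ^ 2 * b ^ 2 := by
    nlinarith [sq_nonneg (a / 2 - c * g * b)]
  have e3 : g * a * m ≤ a ^ 2 / 4 + g ^ 2 * m ^ 2 := by
    nlinarith [sq_nonneg (a / 2 - g * m)]
  have e4 : η * (-a ^ 2 + c * (g * a * b) + g * a * m + b ^ 2) ≤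
      η * (-a ^ 2 / 2 + (1 + c ^ 2 * g ^ 2) * b ^ 2 + g ^ 2 * m ^ 2) := by
    apply mul_le_mul_of_nonneg_left _ hη.le
    linarith
  have e5 : η * (1 + c ^ 2 * g ^ 2) * b ^ 2 ≤ c / 4 * b ^ 2 :=
    mul_le_mul_of_nonneg_right hη3 (sq_nonneg b)
  have e6 : delC g c0 c1 * b ^ 2 ≤ c / 2 * b ^ 2 :=
    mul_le_mul_of_nonneg_right (by linarith) (sq_nonneg b)
  have e7 : delC g c0 c1 * a ^ 2 ≤ η / 2 * a ^ 2 :=
    mul_le_mul_of_nonneg_right hd2 (sq_nonneg a)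
  have hB : bC g c0 c1 = η * g ^ 2 + 1 / c0 := rfl
  rw [hB]
  nlinarith

theorem energy {G : H →L[ℝ] H} (hG : ∀ x y, ⟪G x, y⟫ = ⟪x, G y⟫) {g c0 c1 c : ℝ} (hg : 0 ≤ g)
    (hGg : ∀ x, ‖G x‖ ≤ g * ‖x‖) (hc0 : 0 < c0) (hc : c0 ≤ c) (hc1 : c ≤ c1)
    {w p f : ℝ → H} {t0 t M : ℝ} (ht : t0 ≤ t) (h : ClOn G c w p f (Set.Icc t0 t))
    (hf : ∀ s ∈ Set.Icc t0 t, ‖f s‖ ≤ M) :
    ‖w t‖ ^ 2 + ‖p t‖ ^ 2 ≤ 4 * Real.exp (-delC g c0 c1 * (t - t0)) *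
      (‖w t0‖ ^ 2 + ‖p t0‖ ^ 2) + 4 * (bC g c0 c1 / delC g c0 c1) * M ^ 2 := by
  have hη := etaC_pos (c1 := c1) hg hc0
  have hδ := delC_pos (c1 := c1) hg hc0
  have hB := bC_pos (c1 := c1) hg hc0
  have hM : 0 ≤ M := (norm_nonneg _).trans (hf t0 ⟨le_refl _, ht⟩)
  have hη1 : etaC g c0 c1 ≤ 1 / (2 * (g + 1)) := min_le_left _ _
  have hηg : etaC g c0 c1 * g ≤ 1 / 2 := by
    have h1 : etaC g c0 c1 * (2 * (g + 1)) ≤ 1 := by
      rwa [le_div_iff₀ (by positivity)] at hη1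
    nlinarith
  have hD : bC g c0 c1 / delC g c0 c1 * delC g c0 c1 = bC g c0 c1 := by field_simp
  set η := etaC g c0 c1 with hηd
  set δ := delC g c0 c1 with hδd
  set B := bC g c0 c1 with hBd
  let E : ℝ → ℝ := fun s => (‖w s‖ ^ 2 + ‖p s‖ ^ 2) / 2 + η * ⟪G (w s), p s⟫
  have hcross : ∀ s, |⟪G (w s), p s⟫| ≤ g * ‖w s‖ * ‖p s‖ := by
    intro s
    calc |⟪G (w s), p s⟫| ≤ ‖G (w s)‖ * ‖p s‖ := abs_real_inner_le_norm _ _
      _ ≤ g * ‖w s‖ * ‖p s‖ := mul_le_mul_of_nonneg_right (hGg _) (norm_nonneg _)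
  have hab : ∀ s, |η * ⟪G (w s), p s⟫| ≤ (‖w s‖ ^ 2 + ‖p s‖ ^ 2) / 4 := by
    intro s
    rw [abs_mul, abs_of_pos hη]
    have h1 : η * |⟪G (w s), p s⟫| ≤ η * (g * ‖w s‖ * ‖p s‖) :=
      mul_le_mul_of_nonneg_left (hcross s) hη.le
    have h2 : η * (g * ‖w s‖ * ‖p s‖) ≤ 1 / 2 * (‖w s‖ * ‖p s‖) := by
      have : η * (g * ‖w s‖ * ‖p s‖) = η * g * (‖w s‖ * ‖p s‖) := by ring
      rw [this]
      exact mul_le_mul_of_nonneg_right hηg (by positivity)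
    nlinarith [sq_nonneg (‖w s‖ - ‖p s‖)]
  have hElow : ∀ s, (‖w s‖ ^ 2 + ‖p s‖ ^ 2) / 4 ≤ E s := by
    intro s
    have := (abs_le.1 (hab s)).1
    change _ ≤ (‖w s‖ ^ 2 + ‖p s‖ ^ 2) / 2 + η * ⟪G (w s), p s⟫
    linarith
  have hEup : ∀ s, E s ≤ (‖w s‖ ^ 2 + ‖p s‖ ^ 2) := by
    intro s
    have := (abs_le.1 (hab s)).2
    change (‖w s‖ ^ 2 + ‖p s‖ ^ 2) / 2 + η * ⟪G (w s), p s⟫ ≤ _
    nlinarith [sq_nonneg ‖w s‖, sq_nonneg ‖p s‖]
  -- derivative of the energy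
  have hder : ∀ s ∈ Set.Icc t0 t, ∃ E', HasDerivAt E E' s ∧ E' ≤ -δ * E s + B * M ^ 2 := by
    intro s hs
    obtain ⟨w', p', hw, hp, h1, h2⟩ := h s hs
    have d1 := hw.norm_sq
    have d2 := hp.norm_sq
    have d3 : HasDerivAt (fun s => G (w s)) (G w') s := G.hasFDerivAt.comp_hasDerivAt s hw
    have d4 := d3.inner ℝ hp
    refine ⟨_, (((d1.add d2).div_const 2).add (d4.const_mul η)), ?_⟩
    have i1 : ⟪w s, w'⟫ = -⟪p s, p'⟫ - c * ‖p s‖ ^ 2 + ⟪f s, p s⟫ := by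
      have hw0 : w s = -(G p') - c • G (p s) + G (f s) := by rw [h2]; abel
      calc ⟪w s, w'⟫ = ⟪-(G p') - c • G (p s) + G (f s), w'⟫ := by rw [← hw0]
        _ = -⟪G p', w'⟫ - c * ⟪G (p s), w'⟫ + ⟪G (f s), w'⟫ := by
            rw [inner_add_left, inner_sub_left, inner_neg_left, real_inner_smul_left]
        _ = -⟪p s, p'⟫ - c * ‖p s‖ ^ 2 + ⟪f s, p s⟫ := by
            rw [hG, hG, hG, h1, real_inner_self_eq_norm_sq, real_inner_comm p']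
    have i2 : ⟪G (w s), p'⟫ = -‖w s‖ ^ 2 - c * ⟪w s, G (p s)⟫ + ⟪w s, G (f s)⟫ := by
      rw [hG, h2, inner_add_right, inner_sub_right, inner_neg_right, real_inner_smul_right,
        real_inner_self_eq_norm_sq]
    have i3 : ⟪G w', p s⟫ = ‖p s‖ ^ 2 := by rw [h1, real_inner_self_eq_norm_sq]
    rw [i2, i3]
    have b1 : ⟪f s, p s⟫ ≤ ‖f s‖ * ‖p s‖ := real_inner_le_norm _ _
    have b2 : -⟪w s, G (p s)⟫ ≤ g * ‖w s‖ * ‖p s‖ := by
      have := abs_real_inner_le_norm (w s) (G (p s))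
      have h3 := (abs_le.1 this).1
      have h4 : ‖w s‖ * ‖G (p s)‖ ≤ ‖w s‖ * (g * ‖p s‖) :=
        mul_le_mul_of_nonneg_left (hGg _) (norm_nonneg _)
      nlinarith
    have b3 : ⟪w s, G (f s)⟫ ≤ g * ‖w s‖ * ‖f s‖ := by
      have h3 := real_inner_le_norm (w s) (G (f s))
      have h4 : ‖w s‖ * ‖G (f s)‖ ≤ ‖w s‖ * (g * ‖f s‖) :=
        mul_le_mul_of_nonneg_left (hGg _) (norm_nonneg _)
      nlinarith
    have hsc := scalar_ineq (c1 := c1) hg hc0 hc hc1 (norm_nonneg (w s)) (norm_nonneg (p s))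
      (norm_nonneg (f s))
    rw [← hηd, ← hδd, ← hBd] at hsc
    have hcpos : 0 < c := by linarith
    have b4 : B * ‖f s‖ ^ 2 ≤ B * M ^ 2 :=
      mul_le_mul_of_nonneg_left (pow_le_pow_left₀ (norm_nonneg _) (hf s hs) 2) hB.le
    have b5 : -δ * (‖w s‖ ^ 2 + ‖p s‖ ^ 2) ≤ -δ * E s := by
      have := mul_le_mul_of_nonneg_left (hEup s) hδ.le
      linarith
    have b6 : η * (-‖w s‖ ^ 2 - c * ⟪w s, G (p s)⟫ + ⟪w s, G (f s)⟫ + ‖p s‖ ^ 2) ≤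
        η * (-‖w s‖ ^ 2 + c * (g * ‖w s‖ * ‖p s‖) + g * ‖w s‖ * ‖f s‖ + ‖p s‖ ^ 2) := by
      apply mul_le_mul_of_nonneg_left _ hη.le
      have := mul_le_mul_of_nonneg_left b2 hcpos.le
      linarith
    have b7 : (2 * ⟪w s, w'⟫ + 2 * ⟪p s, p'⟫) / 2 = -c * ‖p s‖ ^ 2 + ⟪f s, p s⟫ := by
      rw [i1]; ring
    rw [b7]
    linarith
  choose! E' hE1 hE2 using hder
  let F : ℝ → ℝ := fun s => Real.exp (δ * (s - t0)) * (E s - B / δ * M ^ 2)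
  have hF : ∀ s ∈ Set.Icc t0 t, HasDerivAt F (Real.exp (δ * (s - t0)) * (δ * 1) *
      (E s - B / δ * M ^ 2) + Real.exp (δ * (s - t0)) * E' s) s := by
    intro s hs
    have d1 : HasDerivAt (fun s => Real.exp (δ * (s - t0)))
        (Real.exp (δ * (s - t0)) * (δ * 1)) s :=
      (((hasDerivAt_id s).sub_const t0).const_mul δ).exp
    exact d1.mul ((hE1 s hs).sub_const _)
  have hanti : AntitoneOn F (Set.Icc t0 t) := by
    apply antitoneOn_of_hasDerivWithinAt_nonpos (convex_Icc t0 t)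
      (f' := fun s => Real.exp (δ * (s - t0)) * (δ * 1) * (E s - B / δ * M ^ 2) +
        Real.exp (δ * (s - t0)) * E' s)
    · intro s hs
      exact (hF s hs).continuousAt.continuousWithinAt
    · intro s hs
      exact (hF s (interior_subset hs)).hasDerivWithinAt
    · intro s hs
      have h1 := hE2 s (interior_subset hs)
      have h2 : Real.exp (δ * (s - t0)) * (δ * 1) * (E s - B / δ * M ^ 2) +
          Real.exp (δ * (s - t0)) * E' s = Real.exp (δ * (s - t0)) *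
          (δ * E s - (B / δ * δ) * M ^ 2 + E' s) := by ring
      rw [h2, hD]
      apply mul_nonpos_of_nonneg_of_nonpos (Real.exp_pos _).le
      linarith
  have hfin := hanti (Set.left_mem_Icc.2 ht) (Set.right_mem_Icc.2 ht) ht
  have hF0 : F t0 = E t0 - B / δ * M ^ 2 := by
    simp only [F, sub_self, mul_zero, Real.exp_zero, one_mul]
  rw [hF0] at hfin
  have hexp : Real.exp (-δ * (t - t0)) * Real.exp (δ * (t - t0)) = 1 := by
    rw [← Real.exp_add]; simp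
  have hexp0 := Real.exp_pos (-δ * (t - t0))
  have h1 : E t - B / δ * M ^ 2 ≤ Real.exp (-δ * (t - t0)) * (E t0 - B / δ * M ^ 2) := by
    calc E t - B / δ * M ^ 2 = Real.exp (-δ * (t - t0)) * Real.exp (δ * (t - t0)) *
          (E t - B / δ * M ^ 2) := by rw [hexp, one_mul]
      _ = Real.exp (-δ * (t - t0)) * F t := by simp only [F]; ring
      _ ≤ _ := mul_le_mul_of_nonneg_left hfin hexp0.le
  have hBδ : 0 < B / δ := by positivity
  have h2 : Real.exp (-δ * (t - t0)) * (E t0 - B / δ * M ^ 2) ≤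
      Real.exp (-δ * (t - t0)) * (‖w t0‖ ^ 2 + ‖p t0‖ ^ 2) := by
    apply mul_le_mul_of_nonneg_left _ hexp0.le
    have : 0 ≤ B / δ * M ^ 2 := by positivity
    linarith [hEup t0]
  have h3 := hElow t
  nlinarith

end Pool.Agent.H54.Damp
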