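import Mathlib

set_option autoImplicit false
set_option linter.unusedSectionVars false

open scoped RealInnerProductSpace
open MeasureTheory Filter Topology

namespace Pool.Agent.H54.Damp

variable {E : Type*} [NormedAddCommGroup E] [InnerProductSpace ℝ E] [CompleteSpace E]

theorem exp_hasDerivAt (B : E →L[ℝ] E) (x : E) (t : ℝ) :
    HasDerivAt (fun t : ℝ => NormedSpace.exp (t • B) x) (B (NormedSpace.exp (t • B) x)) t := by
  have h := hasDerivAt_exp_smul_const' (𝕂 := ℝ) B t
  have h2 := h.clm_apply (hasDerivAt_const t x)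
  refine h2.congr_deriv ?_
  simp

theorem exp_contr {B : E →L[ℝ] E} (hB : ∀ x, ⟪B x, x⟫ ≤ 0) {t : ℝ} (ht : 0 ≤ t) (x : E) :
    ‖NormedSpace.exp (t • B) x‖ ≤ ‖x‖ := by
  have hd := fun t => (exp_hasDerivAt B x t).norm_sq
  have hanti : Antitone fun t : ℝ => ‖NormedSpace.exp (t • B) x‖ ^ 2 := by
    apply antitone_of_hasDerivAt_nonpos hd
    intro t
    have := hB (NormedSpace.exp (t • B) x)
    rw [real_inner_comm] at this
    simp only [Pi.zero_apply]
    linarith
  have h := hanti ht
  simp only [zero_smul, NormedSpace.exp_zero, ContinuousLinearMap.one_apply] at h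
  exact le_of_sq_le_sq h (norm_nonneg _)

theorem commute_exp {B B' : E →L[ℝ] E} (h : Commute B B') (t : ℝ) (x : E) :
    B (NormedSpace.exp (t • B') x) = NormedSpace.exp (t • B') (B x) := by
  have h1 : Commute B (NormedSpace.exp (t • B')) := (h.smul_right t).exp_right
  have := congrArg (fun T : E →L[ℝ] E => T x) h1.eq
  simpa using this

theorem exp_diff {B B' : E →L[ℝ] E} (hB : ∀ x, ⟪B x, x⟫ ≤ 0) (hB' : ∀ x, ⟪B' x, x⟫ ≤ 0)
    (h : Commute B B') {t : ℝ} (ht : 0 ≤ t) (x : E) :
    ‖NormedSpace.exp (t • B) x - NormedSpace.exp (t • B') x‖ ≤ ‖B x - B' x‖ * t := by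
  -- s ↦ exp((t-s)B) exp(sB') x
  have hd : ∀ s : ℝ, HasDerivAt (fun s : ℝ => NormedSpace.exp ((t - s) • B)
      (NormedSpace.exp (s • B') x)) (NormedSpace.exp ((t - s) • B)
      (NormedSpace.exp (s • B') (B' x - B x))) s := by
    intro s
    have h1 : HasDerivAt (fun s : ℝ => NormedSpace.exp ((t - s) • B))
        ((-1 : ℝ) • (NormedSpace.exp ((t - s) • B) * B)) s := by
      have h0 := hasDerivAt_exp_smul_const (𝕂 := ℝ) B (t - s)
      have h2 : HasDerivAt (fun s : ℝ => t - s) (-1) s := (hasDerivAt_id s).const_sub t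
      exact h0.scomp s h2
    have h3 := h1.clm_apply (exp_hasDerivAt B' x s)
    refine h3.congr_deriv ?_
    have e1 : B' (NormedSpace.exp (s • B') x) = NormedSpace.exp (s • B') (B' x) :=
      commute_exp (Commute.refl B') s x
    have e2 : B (NormedSpace.exp (s • B') x) = NormedSpace.exp (s • B') (B x) :=
      commute_exp h s x
    rw [e1]
    simp only [ContinuousLinearMap.smul_apply, ContinuousLinearMap.mul_apply, e2, map_sub]
    module
  have hm := norm_image_sub_le_of_norm_deriv_le_segment' (a := 0) (b := t)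
    (f := fun s : ℝ => NormedSpace.exp ((t - s) • B) (NormedSpace.exp (s • B') x))
    (C := ‖B x - B' x‖) (fun s _ => (hd s).hasDerivWithinAt) ?_ t ⟨ht, le_rfl⟩
  · simp only [sub_self, zero_smul, NormedSpace.exp_zero, ContinuousLinearMap.one_apply,
      sub_zero] at hm
    rw [norm_sub_rev]
    exact hm
  · intro s hs
    calc _ ≤ ‖NormedSpace.exp (s • B') (B' x - B x)‖ := exp_contr hB (by linarith [hs.2]) _
      _ ≤ ‖B' x - B x‖ := exp_contr hB' hs.1 _
      _ = _ := norm_sub_rev _ _

/-- resolvent-type approximations -/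
theorem exists_inv {R : E →L[ℝ] E} (hR : ∀ x, ⟪R x, x⟫ ≤ 0) {ε : ℝ} (hε : 0 < ε) :
    ∃ B : E →L[ℝ] E, (∀ x, R (B x) = ε • B x + x) ∧ (∀ x, B (R x) = x + ε • B x) ∧
      (∀ x, ⟪B x, x⟫ ≤ 0) ∧ (∀ x, ε * ‖B x‖ ≤ ‖x‖) := by
  let S : E →L[ℝ] E := ε • (1 : E →L[ℝ] E) - R
  have hS : ∀ x, S x = ε • x - R x := fun x => by simp [S]
  have hco : ∀ x, ε * ‖x‖ ^ 2 ≤ ⟪S x, x⟫ := by
    intro x
    rw [hS, inner_sub_left, real_inner_smul_left, real_inner_self_eq_norm_sq]
    linarith [hR x]
  have hbb : ∀ x, ε * ‖x‖ ≤ ‖S x‖ := by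
    intro x
    by_cases h : 0 < ‖x‖
    · have h1 := hco x
      have h2 := real_inner_le_norm (S x) x
      have h3 : (ε * ‖x‖) * ‖x‖ ≤ ‖S x‖ * ‖x‖ := by nlinarith
      exact le_of_mul_le_mul_right h3 h
    · have : x = 0 := by simpa using h
      simp [this]
  have hanti : AntilipschitzWith (ε⁻¹).toNNReal S := by
    refine ContinuousLinearMap.antilipschitz_of_bound S ?_
    intro x
    rw [Real.coe_toNNReal _ (inv_pos.2 hε).le, ← div_eq_inv_mul, le_div_iff₀ hε, mul_comm]
    exact hbb x
  have hker : S.ker = ⊥ := LinearMap.ker_eq_bot.2 hanti.injective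
  have hrange : S.range = ⊤ := by
    have hcl : IsClosed (S.range : Set E) := hanti.isClosed_range S.uniformContinuous
    have := hcl.completeSpace_coe
    rw [← S.range.orthogonal_orthogonal, Submodule.eq_top_iff']
    intro v w hw
    have h1 : ⟪S w, w⟫ = 0 := hw _ ⟨w, rfl⟩
    have h2 := hco w
    rw [h1] at h2
    have h3 : ‖w‖ = 0 := by
      by_contra hne
      have : 0 < ‖w‖ := lt_of_le_of_ne (norm_nonneg _) (Ne.symm hne)
      have : 0 < ε * ‖w‖ ^ 2 := by positivity
      linarith
    rw [norm_eq_zero.1 h3]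
    exact inner_zero_left _
  let e : E ≃L[ℝ] E := ContinuousLinearEquiv.ofBijective S hker hrange
  have he : ∀ x, e x = S x := fun x => rfl
  have h1 : ∀ x, S (e.symm x) = x := fun x => e.apply_symm_apply x
  have h2 : ∀ x, e.symm (S x) = x := fun x => e.symm_apply_apply x
  refine ⟨-(e.symm : E →L[ℝ] E), ?_, ?_, ?_, ?_⟩
  · intro x
    have := h1 x
    rw [hS] at this
    simp only [ContinuousLinearMap.neg_apply, ContinuousLinearEquiv.coe_coe, map_neg, smul_neg]
    rw [sub_eq_iff_eq_add] at this
    rw [this]; abel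
  · intro x
    have := h2 x
    rw [hS, map_sub, map_smul] at this
    simp only [ContinuousLinearMap.neg_apply, ContinuousLinearEquiv.coe_coe, smul_neg]
    rw [sub_eq_iff_eq_add] at this
    rw [this]; abel
  · intro x
    simp only [ContinuousLinearMap.neg_apply, ContinuousLinearEquiv.coe_coe, inner_neg_left]
    have h3 := hco (e.symm x)
    rw [h1, real_inner_comm] at h3
    have : 0 ≤ ε * ‖e.symm x‖ ^ 2 := by positivity
    linarith
  · intro x
    simp only [ContinuousLinearMap.neg_apply, ContinuousLinearEquiv.coe_coe, norm_neg]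
    have := hbb (e.symm x)
    rwa [h1] at this

/-- Existence of contraction orbits for the generator `R⁻¹`. -/
theorem hille_yosida {R : E →L[ℝ] E} (hR : ∀ x, ⟪R x, x⟫ ≤ 0) (hd : DenseRange R) (x : E) :
    ∃ z : ℝ → E, Continuous z ∧ (∀ t ≤ 0, z t = x) ∧ (∀ t, ‖z t‖ ≤ ‖x‖) ∧
      ∀ s t, 0 ≤ s → s ≤ t → R (z t) - R (z s) = ∫ r in s..t, z r := by
  let ε : ℕ → ℝ := fun n => 1 / ((n : ℝ) + 1)
  have hε : ∀ n, 0 < ε n := fun n => by positivity
  have hε0 : Tendsto ε atTop (𝓝 0) := tendsto_one_div_add_atTop_nhds_zero_nat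
  choose B hB1 hB2 hB3 hB4 using fun n => exists_inv hR (hε n)
  -- commutation
  have hcomm : ∀ n m, Commute (B n) (B m) := by
    intro n m
    ext y
    change B n (B m y) = B m (B n y)
    -- apply injectivity of (R - ε n)(R - ε m)
    have key : ∀ n m y, B n (R (B m y)) = B m y + ε n • B n (B m y) := fun n m y => hB2 n (B m y)
    -- B n (R (B m y)) = B n (ε m • B m y + y)
    have k1 : ε m • B n (B m y) + B n y = B m y + ε n • B n (B m y) := by
      have := key n m y
      rw [hB1 m y, map_add, map_smul] at this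
      exact this
    have k2 : ε n • B m (B n y) + B m y = B n y + ε m • B m (B n y) := by
      have := key m n y
      rw [hB1 n y, map_add, map_smul] at this
      exact this
    by_cases hnm : ε n = ε m
    · -- then B n = B m by uniqueness
      have : B n = B m := by
        ext v
        -- from k1-like identity with v
        have := key n m v
        rw [hB1 m v, map_add, map_smul, hnm] at this
        have h' : ε m • (B n) ((B m) v) + (B n) v = ε m • (B n) ((B m) v) + B m v := by
          rw [this]; abel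
        exact add_left_cancel h'
      rw [this]
    · have h3 : (ε n - ε m) • (B n (B m y) - B m (B n y)) = 0 := by
        linear_combination (norm := module) (-1 : ℝ) • k1 + (-1 : ℝ) • k2
      rcases smul_eq_zero.1 h3 with h | h
      · exact absurd (sub_eq_zero.1 h) hnm
      · exact sub_eq_zero.1 h
  -- the approximations
  let zn : ℕ → ℝ → E := fun n t => NormedSpace.exp ((max t 0) • B n) x
  have hzc : ∀ n, Continuous (zn n) := by
    intro n
    have h1 : Continuous fun t : ℝ => NormedSpace.exp (t • B n) x :=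
      continuous_iff_continuousAt.2 fun t => (exp_hasDerivAt (B n) x t).continuousAt
    exact h1.comp (continuous_id.max continuous_const)
  have hzb : ∀ n t, ‖zn n t‖ ≤ ‖x‖ := fun n t => exp_contr (hB3 n) (le_max_right _ _) x
  have happrox : ∀ n (z : E), ‖B n (R (R z)) - R z‖ ≤ 2 * ε n * ‖z‖ := by
    intro n z
    have e1 : B n (R (R z)) - R z = ε n • (z + ε n • B n z) := by
      rw [hB2 n (R z), hB2 n z]; abel
    rw [e1, norm_smul, Real.norm_of_nonneg (hε n).le]
    have e2 : ‖z + ε n • B n z‖ ≤ 2 * ‖z‖ := by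
      calc _ ≤ ‖z‖ + ‖ε n • B n z‖ := norm_add_le _ _
        _ = ‖z‖ + ε n * ‖B n z‖ := by rw [norm_smul, Real.norm_of_nonneg (hε n).le]
        _ ≤ ‖z‖ + ‖z‖ := by linarith [hB4 n z]
        _ = _ := by ring
    calc ε n * ‖z + ε n • B n z‖ ≤ ε n * (2 * ‖z‖) := mul_le_mul_of_nonneg_left e2 (hε n).le
      _ = _ := by ring
  have hd2 : DenseRange fun z => R (R z) := hd.comp hd R.continuous
  -- uniform Cauchy on bounded sets
  have hcau : ∀ L : ℝ, ∀ η > 0, ∃ N, ∀ n ≥ N, ∀ m ≥ N, ∀ t ≤ L, ‖zn n t - zn m t‖ < η := by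
    intro L η hη
    obtain ⟨z, hz⟩ := hd2.exists_dist_lt x (by positivity : 0 < η / 4)
    have hlim : Tendsto (fun n => 4 * ε n * ‖z‖ * (max L 0)) atTop (𝓝 (4 * 0 * ‖z‖ * (max L 0))) :=
      ((hε0.const_mul 4).mul_const ‖z‖).mul_const (max L 0)
    rw [mul_zero, zero_mul, zero_mul] at hlim
    obtain ⟨N, hN⟩ := (hlim.eventually (gt_mem_nhds (by positivity : (0:ℝ) < η / 4))).exists_forall_of_atTop
    refine ⟨N, fun n hn m hm t ht => ?_⟩
    have hεn : ε n ≤ ε N := one_div_le_one_div_of_le (by positivity) (by gcongr)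
    have hεm : ε m ≤ ε N := one_div_le_one_div_of_le (by positivity) (by gcongr)
    have hNN := hN N le_rfl
    set τ := max t 0 with hτ
    have hτ0 : 0 ≤ τ := le_max_right _ _
    have hτL : τ ≤ max L 0 := max_le_max_right 0 ht
    have d1 : ‖NormedSpace.exp (τ • B n) (R (R z)) - NormedSpace.exp (τ • B m) (R (R z))‖ ≤
        ‖B n (R (R z)) - B m (R (R z))‖ * τ := exp_diff (hB3 n) (hB3 m) (hcomm n m) hτ0 _
    have d2 : ‖B n (R (R z)) - B m (R (R z))‖ ≤ 4 * ε N * ‖z‖ := by
      calc _ = ‖(B n (R (R z)) - R z) - (B m (R (R z)) - R z)‖ := by congr 1; abel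
        _ ≤ ‖B n (R (R z)) - R z‖ + ‖B m (R (R z)) - R z‖ := norm_sub_le _ _
        _ ≤ 2 * ε n * ‖z‖ + 2 * ε m * ‖z‖ := add_le_add (happrox n z) (happrox m z)
        _ ≤ 2 * ε N * ‖z‖ + 2 * ε N * ‖z‖ := by gcongr
        _ = _ := by ring
    have d3 : ‖B n (R (R z)) - B m (R (R z))‖ * τ ≤ 4 * ε N * ‖z‖ * (max L 0) :=
      mul_le_mul d2 hτL hτ0 (mul_nonneg (mul_nonneg (by norm_num) (hε N).le) (norm_nonneg _))
    have d4 : ∀ k, ‖NormedSpace.exp (τ • B k) x - NormedSpace.exp (τ • B k) (R (R z))‖ < η / 4 := by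
      intro k
      rw [← map_sub]
      refine (exp_contr (hB3 k) hτ0 _).trans_lt ?_
      rwa [← dist_eq_norm]
    have d4n := d4 n
    have d4m := d4 m
    rw [norm_sub_rev] at d4m
    calc ‖zn n t - zn m t‖ = ‖(NormedSpace.exp (τ • B n) x - NormedSpace.exp (τ • B n) (R (R z))) +
          (NormedSpace.exp (τ • B n) (R (R z)) - NormedSpace.exp (τ • B m) (R (R z))) +
          (NormedSpace.exp (τ • B m) (R (R z)) - NormedSpace.exp (τ • B m) x)‖ := by
            congr 1
            change NormedSpace.exp (τ • B n) x - NormedSpace.exp (τ • B m) x = _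
            abel
      _ ≤ _ := norm_add₃_le
      _ < η := by linarith
  -- pointwise limit
  have hlimex : ∀ t, ∃ y, Tendsto (fun n => zn n t) atTop (𝓝 y) := by
    intro t
    apply cauchySeq_tendsto_of_complete
    rw [Metric.cauchySeq_iff]
    intro η hη
    obtain ⟨N, hN⟩ := hcau t η hη
    refine ⟨N, fun n hn m hm => ?_⟩
    rw [dist_eq_norm]
    exact hN n hn m hm t le_rfl
  choose z hz using hlimex
  have hunif : ∀ L : ℝ, ∀ η > 0, ∃ N, ∀ n ≥ N, ∀ t ≤ L, ‖zn n t - z t‖ ≤ η := by
    intro L η hη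
    obtain ⟨N, hN⟩ := hcau L η hη
    refine ⟨N, fun n hn t ht => ?_⟩
    have h1 : Tendsto (fun m => ‖zn n t - zn m t‖) atTop (𝓝 ‖zn n t - z t‖) :=
      (tendsto_const_nhds.sub (hz t)).norm
    refine le_of_tendsto h1 ?_
    filter_upwards [eventually_ge_atTop N] with m hm
    exact (hN n hn m hm t ht).le
  have hloc : TendstoLocallyUniformly zn z atTop := by
    rw [Metric.tendstoLocallyUniformly_iff]
    intro η hη t
    obtain ⟨N, hN⟩ := hunif (t + 1) (η / 2) (by positivity)
    refine ⟨Set.Iio (t + 1), Iio_mem_nhds (by linarith), ?_⟩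
    filter_upwards [eventually_ge_atTop N] with n hn y hy
    rw [dist_comm, dist_eq_norm]
    exact (hN n hn y (le_of_lt hy)).trans_lt (by linarith)
  have hzcont : Continuous z := hloc.continuous (Frequently.of_forall hzc)
  refine ⟨z, hzcont, ?_, ?_, ?_⟩
  · intro t ht
    have : ∀ n, zn n t = x := by
      intro n
      change NormedSpace.exp ((max t 0) • B n) x = x
      rw [max_eq_right ht]
      simp
    refine tendsto_nhds_unique (hz t) ?_
    simp only [this]
    exact tendsto_const_nhds
  · intro t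
    exact le_of_tendsto (hz t).norm (Eventually.of_forall fun n => hzb n t)
  · intro s t hs hst
    have h1 : Tendsto (fun n => R (zn n t) - R (zn n s)) atTop (𝓝 (R (z t) - R (z s))) :=
      ((R.continuous.tendsto _).comp (hz t)).sub ((R.continuous.tendsto _).comp (hz s))
    have h2 : Tendsto (fun n => ∫ r in s..t, zn n r) atTop (𝓝 (∫ r in s..t, z r)) := by
      apply intervalIntegral.tendsto_integral_filter_of_dominated_convergence (fun _ => ‖x‖)
      · exact Eventually.of_forall fun n => (hzc n).aestronglyMeasurable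
      · exact Eventually.of_forall fun n => Eventually.of_forall fun r _ => hzb n r
      · exact intervalIntegrable_const
      · exact Eventually.of_forall fun r _ => hz r
    have h3 : ∀ n, ∫ r in s..t, zn n r = (R (zn n t) - R (zn n s)) - ε n • (zn n t - zn n s) := by
      intro n
      have hder : ∀ r ∈ Set.uIcc s t, HasDerivAt (fun r : ℝ => R (NormedSpace.exp (r • B n) x) -
          ε n • NormedSpace.exp (r • B n) x) (NormedSpace.exp (r • B n) x) r := by
        intro r _
        have hh := exp_hasDerivAt (B n) x r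
        have g1 : HasDerivAt (fun r : ℝ => R (NormedSpace.exp (r • B n) x)) _ r :=
          R.hasFDerivAt.comp_hasDerivAt r hh
        have g2 := g1.sub (hh.const_smul (ε n))
        refine g2.congr_deriv ?_
        rw [hB1 n]
        abel
      have hcont : Continuous fun r : ℝ => NormedSpace.exp (r • B n) x :=
        continuous_iff_continuousAt.2 fun t => (exp_hasDerivAt (B n) x t).continuousAt
      have := intervalIntegral.integral_eq_sub_of_hasDerivAt hder (hcont.intervalIntegrable _ _)
      have e0 : ∫ r in s..t, zn n r = ∫ r in s..t, NormedSpace.exp (r • B n) x := by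
        apply intervalIntegral.integral_congr
        intro r hr
        rw [Set.uIcc_of_le hst] at hr
        change NormedSpace.exp ((max r 0) • B n) x = _
        rw [max_eq_left (hs.trans hr.1)]
      have et : zn n t = NormedSpace.exp (t • B n) x := by
        change NormedSpace.exp ((max t 0) • B n) x = _
        rw [max_eq_left (hs.trans hst)]
      have es : zn n s = NormedSpace.exp (s • B n) x := by
        change NormedSpace.exp ((max s 0) • B n) x = _
        rw [max_eq_left hs]
      rw [e0, this, et, es, smul_sub]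
      abel
    have h4 : Tendsto (fun n => ε n • (zn n t - zn n s)) atTop (𝓝 ((0 : ℝ) • (z t - z s))) :=
      hε0.smul ((hz t).sub (hz s))
    rw [zero_smul] at h4
    have h5 := h1.sub h4
    rw [sub_zero] at h5
    refine tendsto_nhds_unique h5 ?_
    simp only [← h3]
    exact h2

end Pool.Agent.H54.Damp
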