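import Pool.Agent.H54.Damp.Stek
import Pool.Agent.H54.Damp.HY

set_option autoImplicit false
set_option linter.unusedSectionVars false

open scoped RealInnerProductSpace
open MeasureTheory Filter Topology

namespace Pool.Agent.H54.Damp

variable {H : Type*} [NormedAddCommGroup H] [InnerProductSpace ℝ H] [CompleteSpace H]

/-- inverse of the generator of the damped wave semigroup -/
noncomputable def Rop (G : H →L[ℝ] H) (c : ℝ) : WithLp 2 (H × H) →L[ℝ] WithLp 2 (H × H) :=
  ((WithLp.prodContinuousLinearEquiv 2 ℝ H H).symm : (H × H) →L[ℝ] WithLp 2 (H × H)).comp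
    ((-(G.comp (WithLp.sndL 2 ℝ H H)) - c • (G.comp (G.comp (WithLp.fstL 2 ℝ H H)))).prod
      (G.comp (WithLp.fstL 2 ℝ H H)))

theorem Rop_fst (G : H →L[ℝ] H) (c : ℝ) (z : WithLp 2 (H × H)) :
    (Rop G c z).fst = -G z.snd - c • G (G z.fst) := rfl

theorem Rop_snd (G : H →L[ℝ] H) (c : ℝ) (z : WithLp 2 (H × H)) :
    (Rop G c z).snd = G z.fst := rfl

theorem Rop_diss {G : H →L[ℝ] H} (hG : ∀ x y, ⟪G x, y⟫ = ⟪x, G y⟫) {c : ℝ} (hc : 0 ≤ c)
    (z : WithLp 2 (H × H)) : ⟪Rop G c z, z⟫ ≤ 0 := by
  have h : ⟪Rop G c z, z⟫ = ⟪(Rop G c z).fst, z.fst⟫ + ⟪(Rop G c z).snd, z.snd⟫ := rfl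
  rw [h, Rop_fst, Rop_snd, inner_sub_left, inner_neg_left, real_inner_smul_left,
    hG (G z.fst) z.fst, real_inner_self_eq_norm_sq, hG z.snd z.fst, real_inner_comm]
  have : 0 ≤ c * ‖G z.fst‖ ^ 2 := by positivity
  linarith

theorem Rop_dense {G : H →L[ℝ] H} (hG : ∀ x y, ⟪G x, y⟫ = ⟪x, G y⟫)
    (hi : ∀ x, G x = 0 → x = 0) (c : ℝ) : DenseRange (Rop G c) := by
  have h : (Rop G c).range.topologicalClosure = ⊤ := by
    rw [Submodule.topologicalClosure_eq_top_iff, Submodule.eq_bot_iff]
    intro z hz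
    have h1 : ∀ y : WithLp 2 (H × H), ⟪Rop G c y, z⟫ = 0 := fun y => hz _ ⟨y, rfl⟩
    have h2 : ∀ y : WithLp 2 (H × H), ⟪-G y.snd - c • G (G y.fst), z.fst⟫ + ⟪G y.fst, z.snd⟫ = 0 :=
      fun y => h1 y
    have h3 : z.fst = 0 := by
      apply hi
      have h4 := h2 (WithLp.toLp 2 (0, G z.fst))
      simp only [WithLp.toLp_fst, WithLp.toLp_snd, map_zero, smul_zero, sub_zero,
        inner_zero_left, add_zero, inner_neg_left] at h4
      rw [hG, real_inner_self_eq_norm_sq] at h4
      have : ‖G z.fst‖ ^ 2 = 0 := by linarith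
      exact norm_eq_zero.1 (pow_eq_zero_iff (two_ne_zero) |>.1 this)
    have h5 : z.snd = 0 := by
      apply hi
      have h4 := h2 (WithLp.toLp 2 (G z.snd, 0))
      rw [h3] at h4
      simp only [WithLp.toLp_fst, inner_zero_right, zero_add] at h4
      rw [hG, real_inner_self_eq_norm_sq] at h4
      exact norm_eq_zero.1 (pow_eq_zero_iff (two_ne_zero) |>.1 h4)
    have h6 : ‖z‖ ^ 2 = 0 := by
      rw [WithLp.prod_norm_sq_eq_of_L2, h3, h5]; simp
    exact norm_eq_zero.1 (pow_eq_zero_iff (two_ne_zero) |>.1 h6)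
  have h7 := Submodule.dense_iff_topologicalClosure_eq_top.2 h
  intro x
  have := h7 x
  rwa [LinearMap.coe_range] at this

/-- homogeneous continuation -/
theorem exists_hom {G : H →L[ℝ] H} (hG : ∀ x y, ⟪G x, y⟫ = ⟪x, G y⟫)
    (hi : ∀ x, G x = 0 → x = 0) {c : ℝ} (hc : 0 ≤ c) (w0 p0 : H) :
    ∃ w p : ℝ → H, Continuous w ∧ Continuous p ∧ w 0 = w0 ∧ p 0 = p0 ∧
      ∀ s t, 0 ≤ s → s ≤ t → G (w t) - G (w s) = (∫ r in s..t, p r) ∧
        G (p t) - G (p s) = ∫ r in s..t, (-(c • G (p r)) - w r) := by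
  obtain ⟨z, hz, hz0, hzb, hzi⟩ := hille_yosida (Rop_diss hG hc) (Rop_dense hG hi c)
    (WithLp.toLp 2 (w0, p0))
  have hw : Continuous fun t => (z t).fst := (WithLp.fstL 2 ℝ H H).continuous.comp hz
  have hp : Continuous fun t => (z t).snd := (WithLp.sndL 2 ℝ H H).continuous.comp hz
  refine ⟨fun t => (z t).fst, fun t => (z t).snd, hw, hp, ?_, ?_, ?_⟩
  · simp only [hz0 0 le_rfl]; rfl
  · simp only [hz0 0 le_rfl]; rfl
  · intro s t hs hst
    have h := hzi s t hs hst
    have hint : IntervalIntegrable z volume s t := hz.intervalIntegrable _ _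
    have f1 : (∫ r in s..t, (z r).fst) = (∫ r in s..t, z r).fst :=
      ContinuousLinearMap.intervalIntegral_comp_comm (WithLp.fstL 2 ℝ H H) hint
    have f2 : (∫ r in s..t, (z r).snd) = (∫ r in s..t, z r).snd :=
      ContinuousLinearMap.intervalIntegral_comp_comm (WithLp.sndL 2 ℝ H H) hint
    have g1 : G ((z t).fst) - G ((z s).fst) = ∫ r in s..t, (z r).snd := by
      rw [f2, ← h]
      rfl
    refine ⟨g1, ?_⟩
    have g2 : (-G (z t).snd - c • G (G (z t).fst)) - (-G (z s).snd - c • G (G (z s).fst)) =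
        ∫ r in s..t, (z r).fst := by
      rw [f1, ← h]
      rfl
    have i1 : IntervalIntegrable (fun r => -(c • G (z r).snd)) volume s t := by
      apply Continuous.intervalIntegrable
      fun_prop
    rw [intervalIntegral.integral_sub i1 (hw.intervalIntegrable _ _), ← g2,
      intervalIntegral.integral_neg, intervalIntegral.integral_smul,
      ContinuousLinearMap.intervalIntegral_comp_comm G (hp.intervalIntegrable _ _), ← g1, map_sub]
    module

theorem kapF_kapH {G : H →L[ℝ] H} (hG : ∀ x y, ⟪G x, y⟫ = ⟪x, G y⟫)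
    (hi : ∀ x, G x = 0 → x = 0) {c K : ℝ} (hc : 0 ≤ c) (h : KapF G c K) : KapH G c K := by
  intro w p f t1 T M hs hf h0 hM
  have hM0 : 0 ≤ M := (norm_nonneg _).trans (hM T le_rfl)
  obtain ⟨u, q, hu, hq, hu0, hq0, huq⟩ := exists_hom hG hi hc (w T) (p T)
  have hw := hs.cont_w
  have hp := hs.cont_p
  let w2 : ℝ → H := fun t => if t ≤ T then w t else u (t - T)
  let p2 : ℝ → H := fun t => if t ≤ T then p t else q (t - T)
  let f2 : ℝ → H := fun t => if t ≤ T then f t else 0
  have hw2 : Continuous w2 := by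
    apply Continuous.if_le hw (by fun_prop) continuous_id continuous_const
    intro x hx
    simp only [id] at hx
    rw [hx, sub_self, hu0]
  have hp2 : Continuous p2 := by
    apply Continuous.if_le hp (by fun_prop) continuous_id continuous_const
    intro x hx
    simp only [id] at hx
    rw [hx, sub_self, hq0]
  have w2l : ∀ t ≤ T, w2 t = w t := fun t ht => if_pos ht
  have p2l : ∀ t ≤ T, p2 t = p t := fun t ht => if_pos ht
  have f2l : ∀ t ≤ T, f2 t = f t := fun t ht => if_pos ht
  have w2r : ∀ t, T ≤ t → w2 t = u (t - T) := by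
    intro t ht
    rcases ht.eq_or_lt with h' | h'
    · rw [w2l t h'.ge, ← h', sub_self, hu0]
    · exact if_neg (not_le.2 h')
  have p2r : ∀ t, T ≤ t → p2 t = q (t - T) := by
    intro t ht
    rcases ht.eq_or_lt with h' | h'
    · rw [p2l t h'.ge, ← h', sub_self, hq0]
    · exact if_neg (not_le.2 h')
  have f2r : ∀ t, T < t → f2 t = 0 := fun t ht => if_neg (not_le.2 ht)
  have f2m : AEStronglyMeasurable f2 volume := by
    have : f2 = (Set.Iic T).indicator f := by
      funext t
      by_cases ht : t ≤ T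
      · rw [f2l t ht, Set.indicator_of_mem (show t ∈ Set.Iic T from ht)]
      · have h' : t ∉ Set.Iic T := ht
        rw [f2r t (not_le.1 ht), Set.indicator_of_notMem h']
    rw [this]
    exact hf.aestronglyMeasurable.indicator measurableSet_Iic
  have f2b : ∀ t, ‖f2 t‖ ≤ M := by
    intro t
    by_cases ht : t ≤ T
    · rw [f2l t ht]; exact hM t ht
    · rw [f2r t (not_le.1 ht), norm_zero]; exact hM0
  have f2i : ∀ s t, IntervalIntegrable f2 volume s t := by
    intro s t
    apply IntervalIntegrable.mono_fun' (intervalIntegrable_const (c := M)) f2m.restrict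
    exact Eventually.of_forall fun r => f2b r
  -- the two integral identities
  have left : ∀ s t, s ≤ t → t ≤ T → G (w2 t) - G (w2 s) = (∫ r in s..t, p2 r) ∧
      G (p2 t) - G (p2 s) = ∫ r in s..t, (G (f2 r) - c • G (p2 r) - w2 r) := by
    intro s t hst ht
    obtain ⟨a1, a2⟩ := hs.int hf s t
    rw [w2l t ht, w2l s (hst.trans ht), p2l t ht, p2l s (hst.trans ht), a1, a2]
    constructor
    · apply intervalIntegral.integral_congr
      intro r hr
      rw [Set.uIcc_of_le hst] at hr
      exact (p2l r (hr.2.trans ht)).symm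
    · apply intervalIntegral.integral_congr
      intro r hr
      rw [Set.uIcc_of_le hst] at hr
      have hrT := hr.2.trans ht
      simp only
      rw [p2l r hrT, w2l r hrT, f2l r hrT]
  have right : ∀ s t, T ≤ s → s ≤ t → G (w2 t) - G (w2 s) = (∫ r in s..t, p2 r) ∧
      G (p2 t) - G (p2 s) = ∫ r in s..t, (G (f2 r) - c • G (p2 r) - w2 r) := by
    intro s t hs' hst
    obtain ⟨a1, a2⟩ := huq (s - T) (t - T) (by linarith) (by linarith)
    rw [w2r t (hs'.trans hst), w2r s hs', p2r t (hs'.trans hst), p2r s hs', a1, a2,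
      ← intervalIntegral.integral_comp_sub_right (fun r => q r) T,
      ← intervalIntegral.integral_comp_sub_right (fun r => -(c • G (q r)) - u r) T]
    constructor
    · apply intervalIntegral.integral_congr
      intro r hr
      rw [Set.uIcc_of_le hst] at hr
      exact (p2r r (hs'.trans hr.1)).symm
    · apply intervalIntegral.integral_congr_ae
      refine Eventually.of_forall ?_
      intro r hr
      rw [Set.uIoc_of_le hst] at hr
      have hrT : T < r := lt_of_le_of_lt hs' hr.1
      rw [p2r r hrT.le, w2r r hrT.le, f2r r hrT, map_zero]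
      abel
  have pi2 : ∀ s t, IntervalIntegrable p2 volume s t := fun s t => hp2.intervalIntegrable _ _
  have gi2 : ∀ s t, IntervalIntegrable (fun r => G (f2 r) - c • G (p2 r) - w2 r) volume s t := by
    intro s t
    have i1 : IntervalIntegrable (fun r => G (f2 r)) volume s t :=
      ⟨G.integrable_comp (f2i s t).1, G.integrable_comp (f2i s t).2⟩
    have i2 : IntervalIntegrable (fun r => c • G (p2 r)) volume s t := by
      apply Continuous.intervalIntegrable
      fun_prop
    exact (i1.sub i2).sub (hw2.intervalIntegrable _ _)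
  have all : ∀ s t, s ≤ t → G (w2 t) - G (w2 s) = (∫ r in s..t, p2 r) ∧
      G (p2 t) - G (p2 s) = ∫ r in s..t, (G (f2 r) - c • G (p2 r) - w2 r) := by
    intro s t hst
    rcases le_total t T with h1 | h1
    · exact left s t hst h1
    rcases le_total T s with h2 | h2
    · exact right s t h2 hst
    obtain ⟨a1, a2⟩ := left s T h2 le_rfl
    obtain ⟨b1, b2⟩ := right T t le_rfl h1
    constructor
    · rw [← intervalIntegral.integral_add_adjacent_intervals (pi2 s T) (pi2 T t), ← a1, ← b1]
      abel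
    · rw [← intervalIntegral.integral_add_adjacent_intervals (gi2 s T) (gi2 T t), ← a2, ← b2]
      abel
  have hint : ∀ a, IntOn G c w2 p2 f2 a := fun a =>
    ⟨hw2.continuousOn, hp2.continuousOn, fun s t _ _ => f2i s t, fun s t _ hst => (all s t hst).1,
      fun s t _ hst => (all s t hst).2⟩
  -- regularise
  have key : ∀ n : ℕ, ‖St (1 / ((n : ℝ) + 1)) p2 T‖ ≤ K * M := by
    intro n
    have hk : (0 : ℝ) < 1 / ((n : ℝ) + 1) := by positivity
    set k := 1 / ((n : ℝ) + 1) with hkd
    clear_value k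
    have hcl : ClOn G c (St k w2) (St k p2) (St k f2) Set.univ := by
      intro t _
      exact (hint (t - 1)).stek hk t (by simp)
    have hfc : Continuous (St k f2) := continuous_iff_continuousAt.2 fun t =>
      St_continuousAt (a := t - 1) hk (fun s t _ _ => f2i s t) (by linarith)
    refine h (St k w2) (St k p2) (St k f2) (min t1 T - k) T M hcl hfc ?_ ?_
    · intro t ht
      have hle1 : t + k ≤ t1 := by have := min_le_left t1 T; linarith
      have hle2 : t + k ≤ T := by have := min_le_right t1 T; linarith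
      have hz : ∀ g : ℝ → H, (∀ r ≤ t + k, g r = 0) → St k g t = 0 := by
        intro g hg
        unfold St
        rw [intervalIntegral.integral_congr (g := fun _ => (0 : H))]
        · simp
        · intro r hr
          rw [Set.uIcc_of_le (by linarith)] at hr
          exact hg r hr.2
      refine ⟨hz _ fun r hr => ?_, hz _ fun r hr => ?_, hz _ fun r hr => ?_⟩
      · rw [w2l r (hr.trans hle2)]; exact (h0 r (hr.trans hle1)).1
      · rw [p2l r (hr.trans hle2)]; exact (h0 r (hr.trans hle1)).2.1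
      · rw [f2l r (hr.trans hle2)]; exact (h0 r (hr.trans hle1)).2.2
    · intro t
      exact St_bound hk (Eventually.of_forall fun r _ => f2b r)
  have hlim : Tendsto (fun n : ℕ => ‖St (1 / ((n : ℝ) + 1)) p2 T‖) atTop (𝓝 ‖p2 T‖) :=
    (St_tendsto (a := T - 1) hp2.continuousOn (by linarith)).norm
  rw [p2l T le_rfl] at hlim
  exact le_of_tendsto hlim (Eventually.of_forall key)

end Pool.Agent.H54.Damp
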