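import Pool.Agent.H54.Damp.Defs

set_option autoImplicit false
set_option linter.unusedSectionVars false

open scoped RealInnerProductSpace ENNReal
open MeasureTheory Filter Topology

namespace Pool.Agent.H54.Damp

variable {H : Type*} [NormedAddCommGroup H] [InnerProductSpace ℝ H] [CompleteSpace H]

theorem graph_iff {A : H →ₗ.[ℝ] H} (hA : IsSelfAdjoint A) (x y : H) :
    (x, y) ∈ A.graph ↔ ∀ a b, (a, b) ∈ A.graph → ⟪b, x⟫ = ⟪a, y⟫ := by
  have hd := hA.dense_domain
  have h1 := LinearPMap.adjoint_graph_eq_graph_adjoint hd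
  rw [LinearPMap.isSelfAdjoint_def] at hA
  rw [hA] at h1
  conv_lhs => rw [h1]
  rw [Submodule.mem_adjoint_iff]
  simp only [sub_eq_zero]

theorem graph_coercive {A : H →ₗ.[ℝ] H} {b : ℝ} (hb : ∀ v : A.domain, b * ‖(v : H)‖ ^ 2 ≤ ⟪A v, (v : H)⟫)
    {x y : H} (h : (x, y) ∈ A.graph) : b * ‖x‖ ^ 2 ≤ ⟪y, x⟫ := by
  rw [LinearPMap.mem_graph_iff] at h
  obtain ⟨v, h1, h2⟩ := h
  have := hb v
  simp only at h1 h2
  rwa [h1, h2] at this

theorem graph_lower {A : H →ₗ.[ℝ] H} {b : ℝ}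
    (hb : ∀ v : A.domain, b * ‖(v : H)‖ ^ 2 ≤ ⟪A v, (v : H)⟫)
    {x y : H} (h : (x, y) ∈ A.graph) : b * ‖x‖ ≤ ‖y‖ := by
  have h1 := graph_coercive hb h
  have h2 := real_inner_le_norm y x
  by_cases hx : 0 < ‖x‖
  · have : (b * ‖x‖) * ‖x‖ ≤ ‖y‖ * ‖x‖ := by nlinarith
    exact le_of_mul_le_mul_right this hx
  · have : x = 0 := by simpa using hx
    rw [this, norm_zero, mul_zero]; exact norm_nonneg _

theorem surj_of_coercive {A : H →ₗ.[ℝ] H} (hA : IsSelfAdjoint A) {b : ℝ} (hb0 : 0 < b)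
    (hb : ∀ v : A.domain, b * ‖(v : H)‖ ^ 2 ≤ ⟪A v, (v : H)⟫) (y : H) :
    ∃ x, (x, y) ∈ A.graph := by
  let V : Submodule ℝ H := A.graph.map (LinearMap.snd ℝ H H)
  have hV : ∀ y, y ∈ V ↔ ∃ x, (x, y) ∈ A.graph := by
    intro y
    simp [V]
  have hcl : IsClosed (V : Set H) := by
    apply isClosed_of_closure_subset
    intro y hy
    rw [mem_closure_iff_seq_limit] at hy
    obtain ⟨yn, hyn, hlim⟩ := hy
    have hxn : ∀ n, ∃ x, (x, yn n) ∈ A.graph := fun n => (hV _).1 (hyn n)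
    choose xn hxn using hxn
    have hcau : CauchySeq xn := by
      have hyc := hlim.cauchySeq
      rw [Metric.cauchySeq_iff] at hyc ⊢
      intro ε hε
      obtain ⟨N, hN⟩ := hyc (b * ε) (by positivity)
      refine ⟨N, fun m hm n hn => ?_⟩
      have h1 := hN m hm n hn
      have h2 : (xn m - xn n, yn m - yn n) ∈ A.graph := by
        have := A.graph.sub_mem (hxn m) (hxn n)
        simpa using this
      have h3 := graph_lower hb h2
      rw [dist_eq_norm] at h1 ⊢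
      exact lt_of_mul_lt_mul_left (h3.trans_lt h1) hb0.le
    obtain ⟨x, hx⟩ := cauchySeq_tendsto_of_complete hcau
    apply (hV y).2
    refine ⟨x, ?_⟩
    rw [graph_iff hA]
    intro a c hac
    have e : ∀ n, ⟪c, xn n⟫ = ⟪a, yn n⟫ := fun n => (graph_iff hA _ _).1 (hxn n) a c hac
    have l1 : Tendsto (fun n => ⟪c, xn n⟫) atTop (𝓝 ⟪c, x⟫) := tendsto_const_nhds.inner hx
    have l2 : Tendsto (fun n => ⟪a, yn n⟫) atTop (𝓝 ⟪a, y⟫) := tendsto_const_nhds.inner hlim
    simp only [e] at l1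
    exact tendsto_nhds_unique l1 l2
  have horth : Vᗮ = ⊥ := by
    rw [Submodule.eq_bot_iff]
    intro z hz
    have h1 : (z, (0 : H)) ∈ A.graph := by
      rw [graph_iff hA]
      intro a c hac
      rw [inner_zero_right]
      exact hz c ((hV c).2 ⟨a, hac⟩)
    have h2 := graph_lower hb h1
    rw [norm_zero] at h2
    have h3 : ‖z‖ = 0 := by
      by_contra hne
      have : 0 < ‖z‖ := lt_of_le_of_ne (norm_nonneg _) (Ne.symm hne)
      have : 0 < b * ‖z‖ := by positivity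
      linarith
    exact norm_eq_zero.1 h3
  have htop : V = ⊤ := by
    have h1 := Submodule.topologicalClosure_eq_top_iff.2 horth
    rwa [hcl.submodule_topologicalClosure_eq] at h1
  have : y ∈ V := by rw [htop]; trivial
  exact (hV y).1 this

theorem exists_G {A S : H →ₗ.[ℝ] H} (hA : IsSelfAdjoint A) {b : ℝ} (hb0 : 0 < b)
    (hb : ∀ v : A.domain, b * ‖(v : H)‖ ^ 2 ≤ ⟪A v, (v : H)⟫) (hS : IsSqrtOf S A) :
    ∃ G : H →L[ℝ] H, (∀ x y, (x, y) ∈ S.graph ↔ x = G y) ∧ (∀ x y, ⟪G x, y⟫ = ⟪x, G y⟫) ∧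
      (∀ x, G x = 0 → x = 0) ∧ ∀ x, ‖G x‖ ≤ (Real.sqrt b)⁻¹ * ‖x‖ := by
  obtain ⟨hS1, hS2, hS3⟩ := hS
  have hsurj : ∀ y, ∃ x, (x, y) ∈ S.graph := by
    intro y
    obtain ⟨x, hx⟩ := surj_of_coercive hA hb0 hb y
    obtain ⟨z, -, hz⟩ := (hS3 x y).1 hx
    exact ⟨z, hz⟩
  have hinj : ∀ x, (x, (0 : H)) ∈ S.graph → x = 0 := by
    intro x hx
    have h1 : (x, (0 : H)) ∈ A.graph := (hS3 x 0).2 ⟨0, hx, S.graph.zero_mem⟩
    have h2 := graph_lower hb h1
    rw [norm_zero] at h2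
    have h3 : ‖x‖ = 0 := by
      by_contra hne
      have : 0 < ‖x‖ := lt_of_le_of_ne (norm_nonneg _) (Ne.symm hne)
      have : 0 < b * ‖x‖ := by positivity
      linarith
    exact norm_eq_zero.1 h3
  have huniq : ∀ x x' y, (x, y) ∈ S.graph → (x', y) ∈ S.graph → x = x' := by
    intro x x' y h1 h2
    have h3 := S.graph.sub_mem h1 h2
    simp only [Prod.mk_sub_mk, sub_self] at h3
    exact sub_eq_zero.1 (hinj _ h3)
  choose g hg using hsurj
  let G0 : H →ₗ[ℝ] H :=
    { toFun := g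
      map_add' := by
        intro x y
        have := S.graph.add_mem (hg x) (hg y)
        exact huniq _ _ _ (hg (x + y)) (by simpa using this)
      map_smul' := by
        intro r x
        have := S.graph.smul_mem r (hg x)
        exact huniq _ _ _ (hg (r • x)) (by simpa using this) }
  have hG0 : ∀ x, G0 x = g x := fun x => rfl
  have hsymm : G0.IsSymmetric := by
    intro x y
    rw [hG0, hG0]
    have := (graph_iff hS1 _ _).1 (hg x) (g y) y (hg y)
    rw [real_inner_comm, this, real_inner_comm]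
  let G : H →L[ℝ] H := ⟨G0, hsymm.continuous⟩
  have hG : ∀ x, G x = g x := fun x => rfl
  have hgraph : ∀ x y, (x, y) ∈ S.graph ↔ x = G y := by
    intro x y
    rw [hG]
    constructor
    · intro h; exact huniq _ _ _ h (hg y)
    · intro h; rw [h]; exact hg y
  have hGs : ∀ x y, ⟪G x, y⟫ = ⟪x, G y⟫ := fun x y => hsymm x y
  have hGi : ∀ x, G x = 0 → x = 0 := by
    intro x hx
    have h1 : (G x, x) ∈ S.graph := (hgraph _ _).2 rfl
    rw [hx] at h1
    exact LinearPMap.graph_fst_eq_zero_snd S h1 rfl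
  refine ⟨G, hgraph, hGs, hGi, ?_⟩
  -- norm bound
  have hr : DenseRange G := by
    have h : G.range.topologicalClosure = ⊤ := by
      rw [Submodule.topologicalClosure_eq_top_iff, Submodule.eq_bot_iff]
      intro z hz
      apply hGi
      have h1 : ⟪G (G z), z⟫ = 0 := hz _ ⟨G z, rfl⟩
      rw [hGs, real_inner_self_eq_norm_sq] at h1
      exact norm_eq_zero.1 (pow_eq_zero_iff (two_ne_zero) |>.1 h1)
    have h7 := Submodule.dense_iff_topologicalClosure_eq_top.2 h
    intro x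
    have := h7 x
    rwa [LinearMap.coe_range] at this
  have hsq : 0 < Real.sqrt b := Real.sqrt_pos.2 hb0
  have key : ∀ x, Real.sqrt b * ‖G x‖ ≤ ‖x‖ := by
    intro x
    refine hr.induction_on (p := fun x => Real.sqrt b * ‖G x‖ ≤ ‖x‖) x ?_ ?_
    · apply isClosed_le <;> fun_prop
    · intro z
      have h1 : (G (G z), z) ∈ A.graph := (hS3 _ _).2 ⟨G z, (hgraph _ _).2 rfl, (hgraph _ _).2 rfl⟩
      have h2 := graph_coercive hb h1
      rw [← hGs, real_inner_self_eq_norm_sq] at h2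
      apply le_of_sq_le_sq _ (norm_nonneg _)
      rw [mul_pow, Real.sq_sqrt hb0.le]
      exact h2
  intro x
  rw [← div_eq_inv_mul, le_div_iff₀ hsq, mul_comm]
  exact key x

end Pool.Agent.H54.Damp
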