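import Pool.Agent.H54.Damp.Step

set_option autoImplicit false
set_option linter.unusedSectionVars false

open scoped RealInnerProductSpace
open MeasureTheory Filter Topology

namespace Pool.Agent.H54.Damp

variable {H : Type*} [NormedAddCommGroup H] [InnerProductSpace ℝ H] [CompleteSpace H]

/-- solution in integrated form on `(a, ∞)` -/
structure IntOn (G : H →L[ℝ] H) (c : ℝ) (w p f : ℝ → H) (a : ℝ) : Prop where
  cw : ContinuousOn w (Set.Ioi a)
  cp : ContinuousOn p (Set.Ioi a)
  fi : ∀ s t, a < s → s ≤ t → IntervalIntegrable f volume s t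
  e1 : ∀ s t, a < s → s ≤ t → G (w t) - G (w s) = ∫ r in s..t, p r
  e2 : ∀ s t, a < s → s ≤ t → G (p t) - G (p s) = ∫ r in s..t, (G (f r) - c • G (p r) - w r)

theorem contOn_int {g : ℝ → H} {a : ℝ} (hg : ContinuousOn g (Set.Ioi a)) {s t : ℝ} (hs : a < s)
    (hst : s ≤ t) : IntervalIntegrable g volume s t := by
  apply ContinuousOn.intervalIntegrable
  apply hg.mono
  rw [Set.uIcc_of_le hst]
  intro x hx
  exact lt_of_lt_of_le hs hx.1

/-- Steklov average -/
noncomputable def St (h : ℝ) (g : ℝ → H) (t : ℝ) : H := (1 / h) • ∫ s in t..(t + h), g s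

theorem St_split {h : ℝ} (hh : 0 < h) {g : ℝ → H} {a : ℝ}
    (hg : ∀ s t, a < s → s ≤ t → IntervalIntegrable g volume s t) {b : ℝ} (hb : a < b) {x : ℝ}
    (hx : a < x) : St h g x = (1 / h) • ((∫ s in b..(x + h), g s) - ∫ s in b..x, g s) := by
  unfold St
  congr 1
  have i1 : IntervalIntegrable g volume b x := by
    rcases le_total b x with h' | h'
    · exact hg _ _ hb h'
    · exact (hg _ _ hx h').symm
  have i2 : IntervalIntegrable g volume x (x + h) := hg _ _ hx (by linarith)
  rw [← intervalIntegral.integral_add_adjacent_intervals i1 i2]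
  abel

theorem St_hasDerivAt {h : ℝ} (hh : 0 < h) {g : ℝ → H} {a : ℝ} (hg : ContinuousOn g (Set.Ioi a))
    {t : ℝ} (ht : a < t) : HasDerivAt (St h g) ((1 / h) • (g (t + h) - g t)) t := by
  have hgi : ∀ s t, a < s → s ≤ t → IntervalIntegrable g volume s t := fun s t hs hst =>
    contOn_int hg hs hst
  obtain ⟨b, hb1, hb2⟩ := exists_between ht
  have hev : St h g =ᶠ[𝓝 t] fun x => (1 / h) • ((∫ s in b..(x + h), g s) - ∫ s in b..x, g s) := by
    filter_upwards [Ioi_mem_nhds ht] with x hx
    exact St_split hh hgi hb1 hx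
  refine HasDerivAt.congr_of_eventuallyEq ?_ hev
  have hprim : ∀ y, b < y → HasDerivAt (fun x => ∫ s in b..x, g s) (g y) y := by
    intro y hy
    have hay : a < y := hb1.trans hy
    apply intervalIntegral.integral_hasDerivAt_right (hgi _ _ hb1 hy.le)
    · exact ContinuousOn.stronglyMeasurableAtFilter isOpen_Ioi hg y hay
    · exact hg.continuousAt (Ioi_mem_nhds hay)
  have h1 := hprim (t + h) (by linarith)
  have h2 : HasDerivAt (fun x => ∫ s in b..(x + h), g s) (g (t + h)) t := h1.comp_add_const t h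
  exact (h2.sub (hprim t hb2)).const_smul (1 / h)

theorem St_continuousAt {h : ℝ} (hh : 0 < h) {g : ℝ → H} {a : ℝ}
    (hg : ∀ s t, a < s → s ≤ t → IntervalIntegrable g volume s t)
    {t : ℝ} (ht : a < t) : ContinuousAt (St h g) t := by
  obtain ⟨b, hb1, hb2⟩ := exists_between ht
  have hev : St h g =ᶠ[𝓝 t] fun x => (1 / h) • ((∫ s in b..(x + h), g s) - ∫ s in b..x, g s) := by
    filter_upwards [Ioi_mem_nhds ht] with x hx
    exact St_split hh hg hb1 hx
  refine ContinuousAt.congr ?_ hev.symm
  have hprim : ∀ y, b < y → ContinuousAt (fun x => ∫ s in b..x, g s) y := by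
    intro y hy
    have h1 : IntegrableOn g (Set.uIcc b (y + 1)) := by
      rw [Set.uIcc_of_le (by linarith)]
      exact (intervalIntegrable_iff_integrableOn_Icc_of_le (by linarith)).1
        (hg _ _ hb1 (by linarith))
    have h2 := intervalIntegral.continuousOn_primitive_interval h1
    apply h2.continuousAt
    rw [Set.uIcc_of_le (by linarith)]
    exact Icc_mem_nhds hy (by linarith)
  have h1 := hprim (t + h) (by linarith)
  have h2 : ContinuousAt (fun x => ∫ s in b..(x + h), g s) t := by
    have hc : ContinuousAt (fun x : ℝ => x + h) t := by fun_prop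
    exact ContinuousAt.comp (f := fun x : ℝ => x + h) (g := fun x => ∫ s in b..x, g s) h1 hc
  exact (h2.sub (hprim t hb2)).const_smul (1 / h)

theorem IntOn.stek {G : H →L[ℝ] H} {c : ℝ} {w p f : ℝ → H} {a : ℝ} (h : IntOn G c w p f a)
    {k : ℝ} (hk : 0 < k) : ClOn G c (St k w) (St k p) (St k f) (Set.Ioi a) := by
  intro t ht
  refine ⟨_, _, St_hasDerivAt hk h.cw ht, St_hasDerivAt hk h.cp ht, ?_, ?_⟩
  · rw [map_smul, map_sub, h.e1 t (t + k) ht (by linarith)]
    rfl
  · have i1 : IntervalIntegrable f volume t (t + k) := h.fi _ _ ht (by linarith)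
    have i2 : IntervalIntegrable p volume t (t + k) := contOn_int h.cp ht (by linarith)
    have i3 : IntervalIntegrable w volume t (t + k) := contOn_int h.cw ht (by linarith)
    have j1 : IntervalIntegrable (fun r => G (f r)) volume t (t + k) :=
      ⟨G.integrable_comp i1.1, G.integrable_comp i1.2⟩
    have j2 : IntervalIntegrable (fun r => G (p r)) volume t (t + k) :=
      ⟨G.integrable_comp i2.1, G.integrable_comp i2.2⟩
    have j3 : IntervalIntegrable (fun r => c • G (p r)) volume t (t + k) := j2.smul c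
    have j4 : IntervalIntegrable (fun r => G (f r) - c • G (p r)) volume t (t + k) := j1.sub j3
    rw [map_smul, map_sub, h.e2 t (t + k) ht (by linarith)]
    rw [intervalIntegral.integral_sub j4 i3,
      intervalIntegral.integral_sub j1 j3, intervalIntegral.integral_smul,
      ContinuousLinearMap.intervalIntegral_comp_comm G i1,
      ContinuousLinearMap.intervalIntegral_comp_comm G i2]
    unfold St
    simp only [map_smul]
    module

theorem St_bound {h : ℝ} (hh : 0 < h) {g : ℝ → H} {t M : ℝ}
    (hM : ∀ᵐ s, s ∈ Set.Ioc t (t + h) → ‖g s‖ ≤ M) : ‖St h g t‖ ≤ M := by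
  unfold St
  rw [norm_smul, Real.norm_of_nonneg (by positivity : 0 ≤ 1 / h)]
  have h1 : ‖∫ s in t..(t + h), g s‖ ≤ M * |t + h - t| := by
    apply intervalIntegral.norm_integral_le_of_norm_le_const_ae
    rw [Set.uIoc_of_le (by linarith)]
    exact hM
  have h2 : |t + h - t| = h := by rw [add_sub_cancel_left, abs_of_pos hh]
  rw [h2] at h1
  calc 1 / h * ‖∫ s in t..(t + h), g s‖ ≤ 1 / h * (M * h) :=
        mul_le_mul_of_nonneg_left h1 (by positivity)
    _ = M := by field_simp

theorem St_tendsto {g : ℝ → H} {a t : ℝ} (hg : ContinuousOn g (Set.Ioi a)) (ht : a < t) :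
    Tendsto (fun n : ℕ => St (1 / ((n : ℝ) + 1)) g t) atTop (𝓝 (g t)) := by
  rw [Metric.tendsto_atTop]
  intro ε hε
  have hc : ContinuousAt g t := hg.continuousAt (Ioi_mem_nhds ht)
  obtain ⟨δ, hδ, hδ2⟩ := Metric.continuousAt_iff.1 hc (ε / 2) (by positivity)
  obtain ⟨N, hN⟩ := exists_nat_one_div_lt hδ
  refine ⟨N, fun n hn => ?_⟩
  have hh : (0 : ℝ) < 1 / ((n : ℝ) + 1) := by positivity
  have hhδ : 1 / ((n : ℝ) + 1) < δ := lt_of_le_of_lt
    (one_div_le_one_div_of_le (by positivity) (by gcongr)) hN
  set h := 1 / ((n : ℝ) + 1) with hhd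
  clear_value h
  have e : St h g t - g t = St h (fun s => g s - g t) t := by
    unfold St
    rw [intervalIntegral.integral_sub (contOn_int hg ht (by linarith)) intervalIntegrable_const,
      intervalIntegral.integral_const, smul_sub, smul_smul, add_sub_cancel_left]
    have : 1 / h * h = 1 := by field_simp
    rw [this, one_smul]
  rw [dist_eq_norm, e]
  refine lt_of_le_of_lt (St_bound (M := ε / 2) hh (Eventually.of_forall ?_)) (by linarith)
  intro s hs
  rw [← dist_eq_norm]
  apply (hδ2 _).le
  rw [Real.dist_eq, abs_of_pos (by linarith [hs.1])]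
  linarith [hs.2]

/-- a classical solution with continuous right-hand side is an integrated solution -/
theorem ClOn.int {G : H →L[ℝ] H} {c : ℝ} {w p f : ℝ → H} (h : ClOn G c w p f Set.univ)
    (hf : Continuous f) : ∀ s t, G (w t) - G (w s) = (∫ r in s..t, p r) ∧
      G (p t) - G (p s) = ∫ r in s..t, (G (f r) - c • G (p r) - w r) := by
  have hw := h.cont_w
  have hp := h.cont_p
  intro s t
  constructor
  · rw [intervalIntegral.integral_eq_sub_of_hasDerivAt (f := fun r => G (w r))]
    · intro r _
      obtain ⟨w', p', hw', hp', e1, e2⟩ := h r (Set.mem_univ r)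
      rw [← e1]
      exact G.hasFDerivAt.comp_hasDerivAt r hw'
    · exact hp.intervalIntegrable _ _
  · rw [intervalIntegral.integral_eq_sub_of_hasDerivAt (f := fun r => G (p r))]
    · intro r _
      obtain ⟨w', p', hw', hp', e1, e2⟩ := h r (Set.mem_univ r)
      have : HasDerivAt (fun r => G (p r)) (G p') r := G.hasFDerivAt.comp_hasDerivAt r hp'
      refine this.congr_deriv ?_
      rw [e2]; abel
    · apply Continuous.intervalIntegrable
      fun_prop

theorem ClOn.intOn {G : H →L[ℝ] H} {c : ℝ} {w p f : ℝ → H} (h : ClOn G c w p f Set.univ)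
    (hf : Continuous f) (a : ℝ) : IntOn G c w p f a :=
  ⟨h.cont_w.continuousOn, h.cont_p.continuousOn, fun _ _ _ _ => hf.intervalIntegrable _ _,
    fun s t _ _ => (h.int hf s t).1, fun s t _ _ => (h.int hf s t).2⟩

end Pool.Agent.H54.Damp
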