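import Pool.Agent.H54.Damp.TBound

set_option autoImplicit false
set_option linter.unusedSectionVars false

open scoped RealInnerProductSpace
open MeasureTheory

namespace Pool.Agent.H54.Damp

variable {H : Type*} [NormedAddCommGroup H] [InnerProductSpace ℝ H]

/-- half-line admissibility of the constant `K` -/
def KapH (G : H →L[ℝ] H) (c K : ℝ) : Prop :=
  ∀ (w p f : ℝ → H) (t1 T M : ℝ), ClOn G c w p f Set.univ → Continuous f →
    (∀ t ≤ t1, w t = 0 ∧ p t = 0 ∧ f t = 0) → (∀ t ≤ T, ‖f t‖ ≤ M) → ‖p T‖ ≤ K * M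

/-- full-line admissibility of the constant `K` -/
def KapF (G : H →L[ℝ] H) (c K : ℝ) : Prop :=
  ∀ (w p f : ℝ → H) (t1 T M : ℝ), ClOn G c w p f Set.univ → Continuous f →
    (∀ t ≤ t1, w t = 0 ∧ p t = 0 ∧ f t = 0) → (∀ t, ‖f t‖ ≤ M) → ‖p T‖ ≤ K * M

theorem KapH.mono {G : H →L[ℝ] H} {c K K' : ℝ} (h : KapH G c K) (hK : K ≤ K') : KapH G c K' := by
  intro w p f t1 T M h1 h2 h3 h4
  have hM : 0 ≤ M := (norm_nonneg _).trans (h4 T le_rfl)
  exact (h w p f t1 T M h1 h2 h3 h4).trans (mul_le_mul_of_nonneg_right hK hM)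

/-- the radius of the absorbing ball -/
noncomputable def RC (g c0 c1 : ℝ) : ℝ := 2 * Real.sqrt (bC g c0 c1 / delC g c0 c1)

theorem RC_nonneg (g c0 c1 : ℝ) : 0 ≤ RC g c0 c1 := by unfold RC; positivity

theorem sol_bound {G : H →L[ℝ] H} (hG : ∀ x y, ⟪G x, y⟫ = ⟪x, G y⟫) {g c0 c1 c : ℝ} (hg : 0 ≤ g)
    (hGg : ∀ x, ‖G x‖ ≤ g * ‖x‖) (hc0 : 0 < c0) (hc : c0 ≤ c) (hc1 : c ≤ c1)
    {w p f : ℝ → H} {t1 T M : ℝ} (h : ClOn G c w p f Set.univ)
    (h0 : ∀ t ≤ t1, w t = 0 ∧ p t = 0 ∧ f t = 0) (hf : ∀ t ≤ T, ‖f t‖ ≤ M) {t : ℝ} (ht : t ≤ T) :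
    ‖w t‖ ≤ RC g c0 c1 * M ∧ ‖p t‖ ≤ RC g c0 c1 * M := by
  have hM : 0 ≤ M := (norm_nonneg _).trans (hf T le_rfl)
  have hδ := delC_pos (c1 := c1) hg hc0
  have hB := bC_pos (c1 := c1) hg hc0
  have hR := RC_nonneg g c0 c1
  rcases le_total t t1 with h1 | h1
  · obtain ⟨z1, z2, -⟩ := h0 t h1
    rw [z1, z2, norm_zero]
    exact ⟨by positivity, by positivity⟩
  · have he := energy hG hg hGg hc0 hc hc1 h1 (h.mono (Set.subset_univ _))
      (M := M) (fun s hs => hf s (hs.2.trans ht))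
    obtain ⟨z1, z2, -⟩ := h0 t1 le_rfl
    rw [z1, z2] at he
    have hsq : (RC g c0 c1 * M) ^ 2 = 4 * (bC g c0 c1 / delC g c0 c1) * M ^ 2 := by
      unfold RC
      rw [mul_pow, mul_pow, Real.sq_sqrt (by positivity)]
      ring
    rw [norm_zero] at he
    constructor
    · apply le_of_sq_le_sq _ (by positivity)
      rw [hsq]
      nlinarith [sq_nonneg ‖p t‖]
    · apply le_of_sq_le_sq _ (by positivity)
      rw [hsq]
      nlinarith [sq_nonneg ‖w t‖]

variable [CompleteSpace H]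

theorem kap_step {G : H →L[ℝ] H} (hG : ∀ x y, ⟪G x, y⟫ = ⟪x, G y⟫) {g c0 c1 ν ε K : ℝ}
    (hg : 0 ≤ g) (hGg : ∀ x, ‖G x‖ ≤ g * ‖x‖) (hc0 : 0 < c0) (hε : 0 < ε)
    (hc : c0 ≤ 2 * ν - ε) (hc1 : 2 * ν + ε ≤ c1) (hK : 0 ≤ K) (h : KapH G (2 * ν - ε) K) :
    KapH G (2 * ν + ε) (K * (1 + (g * RC g c0 c1 + 2 * (g * RC g c0 c1) ^ 2 * ν ^ 2) * ε ^ 2)) := by
  intro w p f t1 T M hs hf h0 hM
  have hν : 0 < ν := by linarith
  have hM0 : 0 ≤ M := (norm_nonneg _).trans (hM T le_rfl)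
  set C0 := g * RC g c0 c1 with hC0d
  have hC0 : 0 ≤ C0 := mul_nonneg hg (RC_nonneg _ _ _)
  clear_value C0
  have hC1 : 0 ≤ (C0 + 2 * C0 ^ 2 * ν ^ 2) * ε ^ 2 := by positivity
  rcases le_total T t1 with hT | hT
  · rw [(h0 T hT).2.1, norm_zero]
    positivity
  have hwM : ∀ s ∈ Set.Icc t1 T, ‖G (w s)‖ ≤ C0 * M := by
    intro s hs'
    have := (sol_bound hG hg hGg hc0 (by linarith) hc1 hs h0 hM hs'.2).1
    calc ‖G (w s)‖ ≤ g * ‖w s‖ := hGg _
      _ ≤ g * (RC g c0 c1 * M) := mul_le_mul_of_nonneg_left this hg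
      _ = _ := by rw [hC0d]; ring
  have hb := fun t (ht : t ∈ Set.Icc t1 T) => ft_bound (G := G) hν hε hC0 hs.cont_w hf
    (fun s hs' => hM s hs'.2) hwM ht
  have hcl := trans_cl (T := T) hs hf h0
  have hcf : Continuous fun s => Th ε T s • f s := (Th_continuous ε T).smul hf
  have hcw : Continuous fun s => Th ε T s • w s := (Th_continuous ε T).smul hs.cont_w
  have hYc : Continuous (Yw ν ε t1 T w) := Ig_continuous ν t1 hcw
  have hPc : Continuous (Ph ν ε t1 T f) := Ig_continuous ν t1 hcf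
  have hfc : Continuous (ft G ν ε t1 T w f) := by
    unfold ft
    have := Th_continuous ε T
    fun_prop
  -- cutoff
  set c := 2 * ν - ε with hcd
  have hcpos : 0 < c := by linarith
  set m : ℝ := 1 / (2 * (1 + c) * (g ^ 2 + 1)) with hmd
  have hm : 0 < m := by positivity
  have hmg : m * (1 + c) * g ^ 2 ≤ 1 / 2 := by
    have : m * (1 + c) * (g ^ 2 + 1) = 1 / 2 := by
      rw [hmd]; field_simp
    nlinarith [mul_pos hm (by linarith : 0 < 1 + c)]
  obtain ⟨χ, χ1, χ2, a, hab, hcut, z0, z1⟩ := exists_cut_up' m t1 hm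
  have hnew := hcl.cut hcut
  have hχ : Continuous χ := continuous_iff_continuousAt.2 fun x => (hcut.d1 x).continuousAt
  have hχ1 : Continuous χ1 := continuous_iff_continuousAt.2 fun x => (hcut.d2 x).continuousAt
  have hχ2 := hcut.c2
  have hwt := hcl.cont_w
  have hpt := hcl.cont_p
  have hfnew : Continuous (fun t => χ t • ft G ν ε t1 T w f t +
      (2 : ℝ) • χ1 t • pt G ν ε t1 T w p t + (χ2 t + c * χ1 t) • G (wt G ν ε t1 T w f t)) := by
    fun_prop
  have hφ0 : ‖Ph ν ε t1 T f T‖ ≤ M / (ν + ε) := by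
    have := Ig_bound' (T := T) (by linarith : 0 < ν + ε) hT (g := fun s => Th ε T s • f s) hM0 ?_
    · calc _ ≤ _ := this
        _ = _ := by simp
    · intro s hs'
      rw [norm_smul, Real.norm_of_nonneg (Th_pos _ _ _).le]
      calc Th ε T s * ‖f s‖ ≤ Th ε T s * M :=
            mul_le_mul_of_nonneg_left (hM s hs'.2) (Th_pos _ _ _).le
        _ = _ := by unfold Th; ring
  have key := h _ _ _ a T (M * (1 + (C0 + 2 * C0 ^ 2 * ν ^ 2) * ε ^ 2)) hnew hfnew ?_ ?_
  · obtain ⟨e1, e2, e3⟩ := z1 T hT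
    rw [e1, e2, zero_smul, add_zero, one_smul] at key
    have hp : pt G ν ε t1 T w p T = p T := by
      unfold pt
      rw [Th_self, sub_self]
      simp
    rw [hp] at key
    calc _ ≤ _ := key
      _ = _ := by ring
  · intro t ht
    obtain ⟨e1, e2, e3⟩ := z0 t ht
    rw [e1, e2, e3]
    simp
  · intro t ht
    rcases le_total t1 t with h1 | h1
    · obtain ⟨e1, e2, e3⟩ := z1 t h1
      rw [e1, e2, e3]
      simp only [one_smul, zero_smul, smul_zero, mul_zero, add_zero]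
      exact hb t ⟨h1, ht⟩
    · obtain ⟨y1, y2, y3⟩ := h0 t h1
      have y4 : Yw ν ε t1 T w t = 0 := by
        apply Ig_zero ν t1 _ h1
        intro t ht
        rw [(h0 t ht).1, smul_zero]
      have y5 : Ph ν ε t1 T f t = 0 := by
        apply Ig_zero ν t1 _ h1
        intro t ht
        rw [(h0 t ht).2.2, smul_zero]
      have x1 : wt G ν ε t1 T w f t = ε • G (Ph ν ε t1 T f T) := by
        unfold wt; rw [y1, y4]; simp
      have x2 : pt G ν ε t1 T w p t = 0 := by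
        unfold pt; rw [y1, y2, y4]; simp
      have x3 : ft G ν ε t1 T w f t = ε • Ph ν ε t1 T f T := by
        unfold ft; rw [y3, y4, y5]; simp
      rw [x1, x2, x3, smul_zero, smul_zero, add_zero]
      set φ := Ph ν ε t1 T f T with hφd
      clear_value φ
      have n1 : ‖χ t • ε • φ‖ ≤ ε * ‖φ‖ := by
        rw [norm_smul, norm_smul, Real.norm_of_nonneg hε.le, Real.norm_of_nonneg (hcut.r t).1]
        calc χ t * (ε * ‖φ‖) ≤ 1 * (ε * ‖φ‖) :=
              mul_le_mul_of_nonneg_right (hcut.r t).2 (by positivity)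
          _ = _ := one_mul _
      have n2 : ‖(χ2 t + c * χ1 t) • G (ε • G φ)‖ ≤ 1 / 2 * (ε * ‖φ‖) := by
        rw [norm_smul, map_smul, norm_smul, Real.norm_of_nonneg hε.le, Real.norm_eq_abs]
        have a1 : |χ2 t + c * χ1 t| ≤ m * (1 + c) := by
          calc |χ2 t + c * χ1 t| ≤ |χ2 t| + |c * χ1 t| := abs_add_le _ _
            _ = |χ2 t| + c * |χ1 t| := by rw [abs_mul, abs_of_pos hcpos]
            _ ≤ m + c * m := add_le_add (hcut.b2 t) (mul_le_mul_of_nonneg_left (hcut.b1 t) hcpos.le)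
            _ = _ := by ring
        have a2 : ‖G (G φ)‖ ≤ g ^ 2 * ‖φ‖ := by
          calc ‖G (G φ)‖ ≤ g * ‖G φ‖ := hGg _
            _ ≤ g * (g * ‖φ‖) := mul_le_mul_of_nonneg_left (hGg _) hg
            _ = _ := by ring
        calc |χ2 t + c * χ1 t| * (ε * ‖G (G φ)‖) ≤ (m * (1 + c)) * (ε * (g ^ 2 * ‖φ‖)) := by
              apply mul_le_mul a1 _ (by positivity) (by positivity)
              exact mul_le_mul_of_nonneg_left a2 hε.le
          _ = (m * (1 + c) * g ^ 2) * (ε * ‖φ‖) := by ring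
          _ ≤ _ := mul_le_mul_of_nonneg_right hmg (by positivity)
      have n3 : ε * ‖φ‖ ≤ 2 / 3 * M := by
        have : ε * ‖φ‖ ≤ ε * (M / (ν + ε)) := mul_le_mul_of_nonneg_left hφ0 hε.le
        refine this.trans ?_
        rw [mul_div_assoc', div_le_iff₀ (by linarith)]
        nlinarith [mul_nonneg hM0 (by linarith : 0 ≤ ν - ε / 2)]
      calc _ ≤ ‖χ t • ε • φ‖ + ‖(χ2 t + c * χ1 t) • G (ε • G φ)‖ := norm_add_le _ _
        _ ≤ ε * ‖φ‖ + 1 / 2 * (ε * ‖φ‖) := add_le_add n1 n2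
        _ ≤ M := by linarith
        _ ≤ _ := by nlinarith

theorem kap_mono {G : H →L[ℝ] H} (hG : ∀ x y, ⟪G x, y⟫ = ⟪x, G y⟫) {g ca cb K : ℝ}
    (hg : 0 ≤ g) (hGg : ∀ x, ‖G x‖ ≤ g * ‖x‖) (hc0 : 0 < ca) (hab : ca < cb) (hK : 0 ≤ K)
    (h : KapH G ca K) : KapH G cb K := by
  set C0 := g * RC g ca cb with hC0d
  have hC0 : 0 ≤ C0 := mul_nonneg hg (RC_nonneg _ _ _)
  set C1 := C0 + 2 * C0 ^ 2 * cb ^ 2 with hC1d
  have hC1 : 0 ≤ C1 := by positivity
  have hcb : 0 < cb := by linarith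
  have main : ∀ n : ℕ, 0 < n → ∀ k ≤ n, KapH G (ca + k * ((cb - ca) / n))
      (K * (1 + C1 * ((cb - ca) / (2 * n)) ^ 2) ^ k) := by
    intro n hn k
    have hn' : (0 : ℝ) < n := by exact_mod_cast hn
    induction k with
    | zero => intro _; simpa using h
    | succ k ih =>
      intro hk
      have ih' := ih (by omega)
      set ε := (cb - ca) / (2 * n) with hε
      have hεpos : 0 < ε := by rw [hε]; apply div_pos (by linarith) (by positivity)
      have h2ε : (cb - ca) / n = 2 * ε := by rw [hε]; field_simp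
      rw [h2ε] at ih' ⊢
      have hnε : n * (2 * ε) = cb - ca := by rw [← h2ε]; field_simp
      have hkn : ((k : ℝ) + 1) * (2 * ε) ≤ cb - ca := by
        rw [← hnε]
        apply mul_le_mul_of_nonneg_right _ (by positivity)
        exact_mod_cast hk
      set ν := (ca + k * (2 * ε) + ε) / 2 with hν
      have hk0 : (0 : ℝ) ≤ k * (2 * ε) := by positivity
      have e1 : ca + k * (2 * ε) = 2 * ν - ε := by rw [hν]; ring
      have e2 : ca + ((k + 1 : ℕ) : ℝ) * (2 * ε) = 2 * ν + ε := by rw [hν]; push_cast; ring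
      rw [e1] at ih'
      rw [e2]
      have hle2 : 2 * ν + ε ≤ cb := by rw [← e2]; push_cast; linarith
      have hst := kap_step hG hg hGg hc0 hεpos (by rw [← e1]; linarith) hle2
        (by positivity) ih'
      refine hst.mono ?_
      rw [pow_succ (1 + C1 * ε ^ 2) k, ← mul_assoc K, ← hC0d]
      apply mul_le_mul_of_nonneg_left _ (by positivity)
      have hνcb : ν ^ 2 ≤ cb ^ 2 := by
        apply pow_le_pow_left₀ _ _ 2
        · rw [hν]; linarith
        · linarith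
      have : C0 + 2 * C0 ^ 2 * ν ^ 2 ≤ C1 := by
        rw [hC1d]
        have := mul_le_mul_of_nonneg_left hνcb (by positivity : 0 ≤ 2 * C0 ^ 2)
        linarith
      have := mul_le_mul_of_nonneg_right this (sq_nonneg ε)
      linarith
  intro w p f t1 T M hs hf h0 hM
  have hM0 : 0 ≤ M := (norm_nonneg _).trans (hM T le_rfl)
  have hb : ∀ n : ℕ, 0 < n → ‖p T‖ ≤ K * Real.exp (C1 * (cb - ca) ^ 2 / 4 * (1 / n)) * M := by
    intro n hn
    have hn' : (0 : ℝ) < n := by exact_mod_cast hn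
    have hm := main n hn n le_rfl
    have e : ca + n * ((cb - ca) / n) = cb := by field_simp; ring
    rw [e] at hm
    have h1 := hm w p f t1 T M hs hf h0 hM
    refine h1.trans ?_
    apply mul_le_mul_of_nonneg_right _ hM0
    apply mul_le_mul_of_nonneg_left _ hK
    have h2 : 1 + C1 * ((cb - ca) / (2 * n)) ^ 2 ≤ Real.exp (C1 * ((cb - ca) / (2 * n)) ^ 2) := by
      have := Real.add_one_le_exp (C1 * ((cb - ca) / (2 * n)) ^ 2)
      linarith
    calc (1 + C1 * ((cb - ca) / (2 * n)) ^ 2) ^ n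
        ≤ Real.exp (C1 * ((cb - ca) / (2 * n)) ^ 2) ^ n := pow_le_pow_left₀ (by positivity) h2 n
      _ = Real.exp (C1 * (cb - ca) ^ 2 / 4 * (1 / n)) := by
          rw [← Real.exp_nat_mul]
          congr 1
          field_simp
          norm_num
  have hlim : Filter.Tendsto (fun n : ℕ => K * Real.exp (C1 * (cb - ca) ^ 2 / 4 * (1 / (n : ℝ))) * M)
      Filter.atTop (nhds (K * Real.exp (C1 * (cb - ca) ^ 2 / 4 * 0) * M)) := by
    apply Filter.Tendsto.mul_const
    apply Filter.Tendsto.const_mul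
    apply (Real.continuous_exp.tendsto _).comp
    apply Filter.Tendsto.const_mul
    exact tendsto_one_div_atTop_nhds_zero_nat
  rw [mul_zero, Real.exp_zero, mul_one] at hlim
  refine ge_of_tendsto hlim ?_
  filter_upwards [Filter.eventually_gt_atTop 0] with n hn
  exact hb n hn

end Pool.Agent.H54.Damp
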