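import Pool.Agent.H54.Damp.Trans

set_option autoImplicit false
set_option linter.unusedSectionVars false

open scoped RealInnerProductSpace
open MeasureTheory

namespace Pool.Agent.H54.Damp

variable {H : Type*} [NormedAddCommGroup H] [InnerProductSpace ℝ H] [CompleteSpace H]

theorem exp_ineq {x : ℝ} (hx : 0 ≤ x) : (1 + x) * Real.exp (-x) ≤ 1 - x ^ 2 / 2 * Real.exp (-x) := by
  have h1 := Real.quadratic_le_exp_of_nonneg hx
  have h2 : Real.exp x * Real.exp (-x) = 1 := by rw [← Real.exp_add]; simp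
  have h3 := Real.exp_pos (-x)
  have h4 : (1 + x + x ^ 2 / 2) * Real.exp (-x) ≤ Real.exp x * Real.exp (-x) :=
    mul_le_mul_of_nonneg_right h1 h3.le
  rw [h2] at h4
  linarith

theorem scalar_total {ν ε x z θ e C0 : ℝ} (hν : 0 < ν) (hε : 0 < ε) (hx : 0 ≤ x)
    (hz : ε * z = ν * x) (hθ : θ = Real.exp (-x)) (hC0 : 0 ≤ C0) :
    θ + ε * (e - 1 + z) * (θ / (ν + ε)) + ε * ((1 - e * θ) / (ν + ε)) +
      ν * ε ^ 2 * (1 + 2 * z) * (C0 * θ / (ν + ε)) ≤ 1 + (C0 + 2 * C0 ^ 2 * ν ^ 2) * ε ^ 2 := by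
  have hσ : 0 < ν + ε := by linarith
  have h1 : θ + ε * (e - 1 + z) * (θ / (ν + ε)) + ε * ((1 - e * θ) / (ν + ε)) +
      ν * ε ^ 2 * (1 + 2 * z) * (C0 * θ / (ν + ε)) =
      (ν * ((1 + x) * θ) + ε + ν * C0 * (ε ^ 2 + 2 * ε * ν * x) * θ) / (ν + ε) := by
    rw [eq_div_iff hσ.ne']
    field_simp
    have : ε ^ 2 * z = ε * (ν * x) := by rw [← hz]; ring
    linear_combination θ * hz + 2 * ν * θ * C0 * this
  rw [h1, div_le_iff₀ hσ]
  have h2 : (1 + x) * θ ≤ 1 - x ^ 2 / 2 * θ := by rw [hθ]; exact exp_ineq hx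
  have hθ0 : 0 < θ := by rw [hθ]; exact Real.exp_pos _
  have hθ1 : θ ≤ 1 := by rw [hθ]; exact Real.exp_le_one_iff.2 (by linarith)
  have h3 : ν * ((1 + x) * θ) ≤ ν * (1 - x ^ 2 / 2 * θ) := mul_le_mul_of_nonneg_left h2 hν.le
  have h4 : -(x ^ 2 / 2) + 2 * C0 * ε * ν * x ≤ 2 * C0 ^ 2 * ε ^ 2 * ν ^ 2 := by
    nlinarith [sq_nonneg (x - 2 * C0 * ε * ν)]
  have h5 : ν * θ * (-(x ^ 2 / 2) + 2 * C0 * ε * ν * x + C0 * ε ^ 2) ≤
      ν * θ * (2 * C0 ^ 2 * ε ^ 2 * ν ^ 2 + C0 * ε ^ 2) :=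
    mul_le_mul_of_nonneg_left (by linarith) (by positivity)
  have h6 : ν * θ * (2 * C0 ^ 2 * ε ^ 2 * ν ^ 2 + C0 * ε ^ 2) ≤
      ν * 1 * (2 * C0 ^ 2 * ε ^ 2 * ν ^ 2 + C0 * ε ^ 2) := by
    apply mul_le_mul_of_nonneg_right _ (by positivity)
    exact mul_le_mul_of_nonneg_left hθ1 hν.le
  have h7 : 0 ≤ ε * ((C0 + 2 * C0 ^ 2 * ν ^ 2) * ε ^ 2) := by positivity
  nlinarith

theorem ft_bound {G : H →L[ℝ] H} {ν ε t1 T M C0 : ℝ} {w f : ℝ → H} (hν : 0 < ν) (hε : 0 < ε)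
    (hC0 : 0 ≤ C0) (hw : Continuous w) (hf : Continuous f)
    (hM : ∀ s ∈ Set.Icc t1 T, ‖f s‖ ≤ M) (hwM : ∀ s ∈ Set.Icc t1 T, ‖G (w s)‖ ≤ C0 * M)
    {t : ℝ} (ht : t ∈ Set.Icc t1 T) :
    ‖ft G ν ε t1 T w f t‖ ≤ M * (1 + (C0 + 2 * C0 ^ 2 * ν ^ 2) * ε ^ 2) := by
  have hσ : 0 < ν + ε := by linarith
  have hM0 : 0 ≤ M := (norm_nonneg _).trans (hM t ht)
  have hcf : Continuous fun s => Th ε T s • f s := (Th_continuous ε T).smul hf
  have hcw : Continuous fun s => Th ε T s • w s := (Th_continuous ε T).smul hw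
  -- the pointwise bounds of the integrands
  have b1 : ∀ s ∈ Set.Icc t1 T, ‖Th ε T s • f s‖ ≤ M * Real.exp (-ε * (T - s)) := by
    intro s hs
    rw [norm_smul, Real.norm_of_nonneg (Th_pos _ _ _).le]
    calc Th ε T s * ‖f s‖ ≤ Th ε T s * M := mul_le_mul_of_nonneg_left (hM s hs) (Th_pos _ _ _).le
      _ = _ := by unfold Th; ring
  have b2 : ∀ s ∈ Set.Icc t1 T, ‖G (Th ε T s • w s)‖ ≤ C0 * M * Real.exp (-ε * (T - s)) := by
    intro s hs
    rw [map_smul, norm_smul, Real.norm_of_nonneg (Th_pos _ _ _).le]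
    calc Th ε T s * ‖G (w s)‖ ≤ Th ε T s * (C0 * M) :=
          mul_le_mul_of_nonneg_left (hwM s hs) (Th_pos _ _ _).le
      _ = _ := by unfold Th; ring
  have hx : 0 ≤ ε * (T - t) := mul_nonneg hε.le (by linarith [ht.2])
  have hz : 0 ≤ ν * (T - t) := mul_nonneg hν.le (by linarith [ht.2])
  have c1 : ‖Ph ν ε t1 T f t‖ ≤ M * (Th ε T t / (ν + ε)) := by
    have := Ig_bound' (T := T) hσ ht.1 (g := fun s => Th ε T s • f s) hM0
      (fun s hs => b1 s ⟨hs.1, hs.2.trans ht.2⟩)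
    calc _ ≤ _ := this
      _ = _ := by unfold Th; ring
  have c2 : ‖Ig ν t (fun s => Th ε T s • f s) T‖ ≤
      M * ((1 - Real.exp (-(ν * (T - t))) * Th ε T t) / (ν + ε)) := by
    have := Ig_bound (T := T) hσ ht.2 (g := fun s => Th ε T s • f s) (N := M)
      (fun s hs => b1 s ⟨ht.1.trans hs.1, hs.2⟩)
    calc _ ≤ _ := this
      _ = _ := by
        unfold Th
        rw [← Real.exp_add]
        simp only [sub_self, mul_zero, Real.exp_zero, mul_one]
        congr 4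
        ring
  have c3 : ‖G (Yw ν ε t1 T w t)‖ ≤ M * (C0 * Th ε T t / (ν + ε)) := by
    have e : G (Yw ν ε t1 T w t) = Ig ν t1 (fun s => G (Th ε T s • w s)) t := Ig_map G ν t1 hcw t
    rw [e]
    have := Ig_bound' (T := T) hσ ht.1 (g := fun s => G (Th ε T s • w s)) (N := C0 * M)
      (by positivity) (fun s hs => b2 s ⟨hs.1, hs.2.trans ht.2⟩)
    calc _ ≤ _ := this
      _ = _ := by unfold Th; ring
  have c4 : ‖f t‖ ≤ M := hM t ht
  have e1 : ft G ν ε t1 T w f t = Th ε T t • f t +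
      (ε * (Real.exp (-(ν * (T - t))) - 1 + ν * (T - t))) • Ph ν ε t1 T f t +
      ε • Ig ν t (fun s => Th ε T s • f s) T -
      (ν * ε ^ 2 * (1 - 2 * (ν * (T - t)))) • G (Yw ν ε t1 T w t) := by
    have hs : Ph ν ε t1 T f T = Real.exp (-ν * (T - t)) • Ph ν ε t1 T f t +
      Ig ν t (fun s => Th ε T s • f s) T := Ig_split ν t1 hcf t T
    unfold ft
    rw [hs, neg_mul]
    module
  have hez : 0 ≤ Real.exp (-(ν * (T - t))) - 1 + ν * (T - t) := by
    have := Real.add_one_le_exp (-(ν * (T - t)))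
    linarith
  have habs : |1 - 2 * (ν * (T - t))| ≤ 1 + 2 * (ν * (T - t)) := by
    rw [abs_le]; constructor <;> linarith
  have hst := scalar_total (e := Real.exp (-(ν * (T - t)))) (z := ν * (T - t)) hν hε hx
    (by ring) rfl hC0
  have hθ : Th ε T t = Real.exp (-(ε * (T - t))) := by unfold Th; rw [neg_mul]
  rw [← hθ] at hst
  calc ‖ft G ν ε t1 T w f t‖ ≤ ‖Th ε T t • f t‖ +
      ‖(ε * (Real.exp (-(ν * (T - t))) - 1 + ν * (T - t))) • Ph ν ε t1 T f t‖ +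
      ‖ε • Ig ν t (fun s => Th ε T s • f s) T‖ +
      ‖(ν * ε ^ 2 * (1 - 2 * (ν * (T - t)))) • G (Yw ν ε t1 T w t)‖ := by
        rw [e1]
        refine (norm_sub_le _ _).trans ?_
        gcongr
        refine (norm_add_le _ _).trans ?_
        gcongr
        exact norm_add_le _ _
    _ ≤ Th ε T t * M + ε * (Real.exp (-(ν * (T - t))) - 1 + ν * (T - t)) *
          (M * (Th ε T t / (ν + ε))) +
        ε * (M * ((1 - Real.exp (-(ν * (T - t))) * Th ε T t) / (ν + ε))) +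
        ν * ε ^ 2 * (1 + 2 * (ν * (T - t))) * (M * (C0 * Th ε T t / (ν + ε))) := by
        have t1 := (Th_pos ε T t).le
        gcongr
        · rw [norm_smul, Real.norm_of_nonneg t1]
          exact mul_le_mul_of_nonneg_left c4 t1
        · rw [norm_smul, Real.norm_of_nonneg (mul_nonneg hε.le hez)]
          exact mul_le_mul_of_nonneg_left c1 (mul_nonneg hε.le hez)
        · rw [norm_smul, Real.norm_of_nonneg hε.le]
          exact mul_le_mul_of_nonneg_left c2 hε.le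
        · rw [norm_smul, norm_mul, Real.norm_of_nonneg (by positivity : 0 ≤ ν * ε ^ 2),
            Real.norm_eq_abs]
          exact mul_le_mul (mul_le_mul_of_nonneg_left habs (by positivity)) c3 (norm_nonneg _)
            (by positivity)
    _ = M * (Th ε T t + ε * (Real.exp (-(ν * (T - t))) - 1 + ν * (T - t)) *
          (Th ε T t / (ν + ε)) +
        ε * ((1 - Real.exp (-(ν * (T - t))) * Th ε T t) / (ν + ε)) +
        ν * ε ^ 2 * (1 + 2 * (ν * (T - t))) * (C0 * Th ε T t / (ν + ε))) := by ring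
    _ ≤ _ := mul_le_mul_of_nonneg_left hst hM0

end Pool.Agent.H54.Damp
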