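import Pool.Agent.H54.Damp.Conv

set_option autoImplicit false
set_option linter.unusedSectionVars false

open scoped RealInnerProductSpace
open MeasureTheory

namespace Pool.Agent.H54.Damp

variable {H : Type*} [NormedAddCommGroup H] [InnerProductSpace ℝ H] [CompleteSpace H]

theorem ClOn.cont_w {G : H →L[ℝ] H} {c : ℝ} {w p f : ℝ → H} (h : ClOn G c w p f Set.univ) :
    Continuous w := continuous_iff_continuousAt.2 fun t => h.continuousAt_w (Set.mem_univ t)

theorem ClOn.cont_p {G : H →L[ℝ] H} {c : ℝ} {w p f : ℝ → H} (h : ClOn G c w p f Set.univ) :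
    Continuous p := continuous_iff_continuousAt.2 fun t => h.continuousAt_p (Set.mem_univ t)

/-- the weight -/
noncomputable def Th (ε T t : ℝ) : ℝ := Real.exp (-ε * (T - t))

theorem Th_hasDerivAt (ε T t : ℝ) : HasDerivAt (Th ε T) (ε * Th ε T t) t := by
  have h1 : HasDerivAt (fun t => -ε * (T - t)) (-ε * (-1)) t :=
    ((hasDerivAt_id t).const_sub T).const_mul (-ε)
  have h2 := h1.exp
  refine h2.congr_deriv ?_
  unfold Th
  ring

theorem Th_continuous (ε T : ℝ) : Continuous (Th ε T) := by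
  unfold Th
  fun_prop

theorem Th_self (ε T : ℝ) : Th ε T T = 1 := by simp [Th]

theorem Th_pos (ε T t : ℝ) : 0 < Th ε T t := Real.exp_pos _

section trans

variable (G : H →L[ℝ] H) (ν ε t1 T : ℝ) (w p f : ℝ → H)

noncomputable def Yw (t : ℝ) : H := Ig ν t1 (fun s => Th ε T s • w s) t
noncomputable def Ph (t : ℝ) : H := Ig ν t1 (fun s => Th ε T s • f s) t

noncomputable def wt (t : ℝ) : H := Th ε T t • w t - (ε * (1 + ν * (t - T))) • Yw ν ε t1 T w t +
  ε • G (Ph ν ε t1 T f T)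

noncomputable def pt (t : ℝ) : H := Th ε T t • p t -
  (ε * ν * (t - T)) • (Th ε T t • G (w t) - ν • G (Yw ν ε t1 T w t))

noncomputable def ft (t : ℝ) : H := Th ε T t • f t - (ε * (1 + ν * (t - T))) • Ph ν ε t1 T f t -
  (ν * ε ^ 2 * (1 + 2 * ν * (t - T))) • G (Yw ν ε t1 T w t) + ε • Ph ν ε t1 T f T

noncomputable def Dt (t : ℝ) : H := Th ε T t • G (p t) + (ν * Th ε T t) • G (G (w t)) -
  (ν * (ν + ε)) • G (G (Yw ν ε t1 T w t)) + Yw ν ε t1 T w t - G (Ph ν ε t1 T f t)

end trans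

section

variable {G : H →L[ℝ] H} {ν ε t1 T : ℝ} {w p f : ℝ → H}

theorem Dt_zero (h : ClOn G (2 * ν + ε) w p f Set.univ) (hf : Continuous f)
    (h0 : ∀ t ≤ t1, w t = 0 ∧ p t = 0 ∧ f t = 0) (t : ℝ) : Dt G ν ε t1 T w p f t = 0 := by
  have hw := h.cont_w
  have hΘ := Th_continuous ε T
  have hcw : Continuous fun s => Th ε T s • w s := hΘ.smul hw
  have hcf : Continuous fun s => Th ε T s • f s := hΘ.smul hf
  have hder : ∀ t, HasDerivAt (Dt G ν ε t1 T w p f) (-ν • Dt G ν ε t1 T w p f t) t := by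
    intro t
    obtain ⟨w', p', hw', hp', e1, e2⟩ := h t (Set.mem_univ t)
    have dT := Th_hasDerivAt ε T t
    have dYw : HasDerivAt (Yw ν ε t1 T w) (Th ε T t • w t - ν • Yw ν ε t1 T w t) t :=
      Ig_hasDerivAt ν t1 hcw t
    have dPh : HasDerivAt (Ph ν ε t1 T f) (Th ε T t • f t - ν • Ph ν ε t1 T f t) t :=
      Ig_hasDerivAt ν t1 hcf t
    have dGp : HasDerivAt (fun t => G (p t)) (G p') t := G.hasFDerivAt.comp_hasDerivAt t hp'
    have dGw : HasDerivAt (fun t => G (w t)) (G w') t := G.hasFDerivAt.comp_hasDerivAt t hw'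
    have dGGw : HasDerivAt (fun t => G (G (w t))) (G (G w')) t :=
      G.hasFDerivAt.comp_hasDerivAt t dGw
    have dGY : HasDerivAt (fun t => G (Yw ν ε t1 T w t)) _ t := G.hasFDerivAt.comp_hasDerivAt t dYw
    have dGGY : HasDerivAt (fun t => G (G (Yw ν ε t1 T w t))) _ t :=
      G.hasFDerivAt.comp_hasDerivAt t dGY
    have dGPh : HasDerivAt (fun t => G (Ph ν ε t1 T f t)) _ t := G.hasFDerivAt.comp_hasDerivAt t dPh
    have key := (((dT.smul dGp).add ((dT.const_mul ν).smul dGGw)).sub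
      (dGGY.const_smul (ν * (ν + ε)))).add dYw |>.sub dGPh
    refine key.congr_deriv ?_
    unfold Dt
    rw [e1, e2]
    simp only [map_sub, map_smul]
    module
  have hexp : ∀ t, HasDerivAt (fun t => Real.exp (ν * t) • Dt G ν ε t1 T w p f t) 0 t := by
    intro t
    have h2 : HasDerivAt (fun t => Real.exp (ν * t)) (Real.exp (ν * t) * (ν * 1)) t :=
      ((hasDerivAt_id t).const_mul ν).exp
    refine (h2.smul (hder t)).congr_deriv ?_
    module
  have hconst := is_const_of_deriv_eq_zero (f := fun t => Real.exp (ν * t) • Dt G ν ε t1 T w p f t)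
    (fun t => (hexp t).differentiableAt) (fun t => (hexp t).deriv) t t1
  have hz : Dt G ν ε t1 T w p f t1 = 0 := by
    obtain ⟨z1, z2, z3⟩ := h0 t1 le_rfl
    have y1 : Yw ν ε t1 T w t1 = 0 := by
      apply Ig_zero ν t1 _ le_rfl
      intro t ht
      rw [(h0 t ht).1, smul_zero]
    have y2 : Ph ν ε t1 T f t1 = 0 := by
      apply Ig_zero ν t1 _ le_rfl
      intro t ht
      rw [(h0 t ht).2.2, smul_zero]
    unfold Dt
    rw [z1, z2, y1, y2]
    simp
  simp only [hz, smul_zero] at hconst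
  rcases smul_eq_zero.1 hconst with h' | h'
  · exact absurd h' (Real.exp_pos _).ne'
  · exact h'

theorem trans_cl (h : ClOn G (2 * ν + ε) w p f Set.univ) (hf : Continuous f)
    (h0 : ∀ t ≤ t1, w t = 0 ∧ p t = 0 ∧ f t = 0) :
    ClOn G (2 * ν - ε) (wt G ν ε t1 T w f) (pt G ν ε t1 T w p) (ft G ν ε t1 T w f) Set.univ := by
  intro t _
  have hw := h.cont_w
  have hΘ := Th_continuous ε T
  have hcw : Continuous fun s => Th ε T s • w s := hΘ.smul hw
  have hcf : Continuous fun s => Th ε T s • f s := hΘ.smul hf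
  obtain ⟨w', p', hw', hp', e1, e2⟩ := h t (Set.mem_univ t)
  have dT := Th_hasDerivAt ε T t
  have dYw : HasDerivAt (Yw ν ε t1 T w) (Th ε T t • w t - ν • Yw ν ε t1 T w t) t :=
    Ig_hasDerivAt ν t1 hcw t
  have dGw : HasDerivAt (fun t => G (w t)) (G w') t := G.hasFDerivAt.comp_hasDerivAt t hw'
  have dGY : HasDerivAt (fun t => G (Yw ν ε t1 T w t)) _ t := G.hasFDerivAt.comp_hasDerivAt t dYw
  have dl : HasDerivAt (fun t => ε * (1 + ν * (t - T))) (ε * (ν * 1)) t :=
    ((((hasDerivAt_id t).sub_const T).const_mul ν).const_add 1).const_mul ε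
  have dl2 : HasDerivAt (fun t => ε * ν * (t - T)) (ε * ν * 1) t :=
    ((hasDerivAt_id t).sub_const T).const_mul (ε * ν)
  have dw := ((dT.smul hw').sub (dl.smul dYw)).add_const (ε • G (Ph ν ε t1 T f T))
  have dp := (dT.smul hp').sub (dl2.smul ((dT.smul dGw).sub (dGY.const_smul ν)))
  refine ⟨_, _, dw, dp, ?_, ?_⟩
  · unfold pt
    simp only [map_add, map_sub, map_smul, e1]
    module
  · have hD := Dt_zero (T := T) h hf h0 t
    unfold Dt at hD
    unfold wt pt ft
    simp only [Pi.sub_apply, Pi.smul_apply', Pi.smul_apply, map_add, map_sub, map_smul, e1, e2]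
    linear_combination (norm := module) (-(ε * (1 + ν * (t - T)))) • hD
 
end

end Pool.Agent.H54.Damp
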