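import Pool.Agent.H54.Damp.Op
import Pool.Agent.H54.Damp.Adm

set_option autoImplicit false
set_option linter.unusedSectionVars false

open scoped RealInnerProductSpace ENNReal NNReal
open MeasureTheory Filter Topology

namespace Pool.Agent.H54.Damp

variable {H : Type*} [NormedAddCommGroup H] [InnerProductSpace ℝ H] [CompleteSpace H]

theorem integral_inner_right {g : ℝ → H} {s t : ℝ} (hg : IntervalIntegrable g volume s t) (y : H) :
    ∫ r in s..t, ⟪g r, y⟫ = ⟪∫ r in s..t, g r, y⟫ := by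
  have h := ContinuousLinearMap.intervalIntegral_comp_comm (innerSL ℝ y) hg
  simp only [innerSL_apply_apply] at h
  rw [real_inner_comm, ← h]
  apply intervalIntegral.integral_congr
  intro r _
  exact real_inner_comm _ _

/-- from weak solutions to integrated solutions -/
theorem intOn_of_weak {S : H →ₗ.[ℝ] H} {G : H →L[ℝ] H} (hgr : ∀ x y, (x, y) ∈ S.graph ↔ x = G y)
    (hG : ∀ x y, ⟪G x, y⟫ = ⟪x, G y⟫) {c : ℝ} {f u w : ℝ → H}
    (hf : LocallyIntegrableOn f (Set.Ioi 0)) (h1 : ∀ t > 0, (u t, w t) ∈ S.graph)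
    (h2 : ContinuousOn w (Set.Ioi 0)) (h3 : ∀ t > 0, DifferentiableAt ℝ u t)
    (h4 : ContinuousOn (deriv u) (Set.Ioi 0))
    (h5 : ∀ φ ψ : H, (φ, ψ) ∈ S.graph → ∀ s t : ℝ, 0 < s → s ≤ t →
      ⟪deriv u t - deriv u s, φ⟫ = ∫ r in s..t, (⟪f r, φ⟫ - c * ⟪deriv u r, φ⟫ - ⟪w r, ψ⟫)) :
    IntOn G c w (deriv u) f 0 := by
  have hu : ∀ t > 0, u t = G (w t) := fun t ht => (hgr _ _).1 (h1 t ht)
  have hfi : ∀ s t, 0 < s → s ≤ t → IntervalIntegrable f volume s t := by
    intro s t hs hst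
    rw [intervalIntegrable_iff_integrableOn_Icc_of_le hst]
    apply hf.integrableOn_compact_subset _ isCompact_Icc
    intro x hx
    exact lt_of_lt_of_le hs hx.1
  refine ⟨h2, h4, hfi, ?_, ?_⟩
  · intro s t hs hst
    rw [← hu t (hs.trans_le hst), ← hu s hs, intervalIntegral.integral_eq_sub_of_hasDerivAt (f := u)]
    · intro r hr
      rw [Set.uIcc_of_le hst] at hr
      exact (h3 r (lt_of_lt_of_le hs hr.1)).hasDerivAt
    · exact contOn_int h4 hs hst
  · intro s t hs hst
    have i1 : IntervalIntegrable f volume s t := hfi s t hs hst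
    have i2 : IntervalIntegrable (deriv u) volume s t := contOn_int h4 hs hst
    have i3 : IntervalIntegrable w volume s t := contOn_int h2 hs hst
    have j1 : IntervalIntegrable (fun r => G (f r)) volume s t :=
      ⟨G.integrable_comp i1.1, G.integrable_comp i1.2⟩
    have j2 : IntervalIntegrable (fun r => G (deriv u r)) volume s t :=
      ⟨G.integrable_comp i2.1, G.integrable_comp i2.2⟩
    have j3 : IntervalIntegrable (fun r => G (f r) - c • G (deriv u r) - w r) volume s t :=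
      (j1.sub (j2.smul c)).sub i3
    apply ext_inner_right ℝ
    intro y
    rw [← integral_inner_right j3, ← map_sub, hG, h5 (G y) y ((hgr _ _).2 rfl) s t hs hst]
    apply intervalIntegral.integral_congr
    intro r _
    simp only [inner_sub_left, real_inner_smul_left, hG]

/-- from integrated solutions to weak solutions -/
theorem weak_of_intOn {A S : H →ₗ.[ℝ] H} {G : H →L[ℝ] H} (hS : IsSqrtOf S A)
    (hgr : ∀ x y, (x, y) ∈ S.graph ↔ x = G y)
    (hG : ∀ x y, ⟪G x, y⟫ = ⟪x, G y⟫) {c : ℝ} {f w p : ℝ → H} (h : IntOn G c w p f 0) :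
    LocallyIntegrableOn f (Set.Ioi 0) ∧ IsSolution A c f (fun t => G (w t)) ∧
      ∀ t > 0, deriv (fun t => G (w t)) t = p t := by
  have hder : ∀ t > 0, HasDerivAt (fun t => G (w t)) (p t) t := by
    intro t ht
    obtain ⟨b, hb1, hb2⟩ := exists_between ht
    have hev : (fun t => G (w t)) =ᶠ[𝓝 t] fun x => G (w b) + ∫ r in b..x, p r := by
      filter_upwards [Ioi_mem_nhds hb2] with x hx
      rw [← h.e1 b x hb1 (le_of_lt hx)]
      abel
    refine HasDerivAt.congr_of_eventuallyEq ?_ hev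
    have : HasDerivAt (fun x => ∫ r in b..x, p r) (p t) t := by
      apply intervalIntegral.integral_hasDerivAt_right (contOn_int h.cp hb1 hb2.le)
      · exact ContinuousOn.stronglyMeasurableAtFilter isOpen_Ioi h.cp t ht
      · exact h.cp.continuousAt (Ioi_mem_nhds ht)
    exact this.const_add _
  have hd : ∀ t > 0, deriv (fun t => G (w t)) t = p t := fun t ht => (hder t ht).deriv
  refine ⟨?_, ⟨S, w, hS, ?_, h.cw, ?_, ?_, ?_⟩, hd⟩
  · intro x hx
    have hx' : (0 : ℝ) < x := hx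
    refine ⟨Set.Icc (x / 2) (x + 1), ?_, ?_⟩
    · exact mem_nhdsWithin_of_mem_nhds (Icc_mem_nhds (by linarith) (by linarith))
    · rw [← intervalIntegrable_iff_integrableOn_Icc_of_le (by linarith)]
      exact h.fi _ _ (by linarith) (by linarith)
  · intro t _
    exact (hgr _ _).2 rfl
  · intro t ht
    exact (hder t ht).differentiableAt
  · exact h.cp.congr fun t ht => hd t ht
  · intro φ ψ hφ s t hs hst
    have i1 : IntervalIntegrable f volume s t := h.fi s t hs hst
    have i2 : IntervalIntegrable p volume s t := contOn_int h.cp hs hst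
    have i3 : IntervalIntegrable w volume s t := contOn_int h.cw hs hst
    have j1 : IntervalIntegrable (fun r => G (f r)) volume s t :=
      ⟨G.integrable_comp i1.1, G.integrable_comp i1.2⟩
    have j2 : IntervalIntegrable (fun r => G (p r)) volume s t :=
      ⟨G.integrable_comp i2.1, G.integrable_comp i2.2⟩
    have j3 : IntervalIntegrable (fun r => G (f r) - c • G (p r) - w r) volume s t :=
      (j1.sub (j2.smul c)).sub i3
    have hφ' : φ = G ψ := (hgr _ _).1 hφ
    rw [hd t (hs.trans_le hst), hd s hs, hφ', ← hG, map_sub, h.e2 s t hs hst,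
      ← integral_inner_right j3]
    apply intervalIntegral.integral_congr
    intro r hr
    rw [Set.uIcc_of_le hst] at hr
    simp only
    rw [hd r (lt_of_lt_of_le hs hr.1)]
    simp only [inner_sub_left, real_inner_smul_left, hG]

theorem admI_of_admissible {A S : H →ₗ.[ℝ] H} {G : H →L[ℝ] H} (hS : IsSqrtOf S A)
    (hgr : ∀ x y, (x, y) ∈ S.graph ↔ x = G y) (hG : ∀ x y, ⟪G x, y⟫ = ⟪x, G y⟫) {c : ℝ}
    {K : ℝ≥0∞} (hK : K ≠ ⊤) (h : IsAdmissible A c K) : AdmI G c K.toReal := by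
  intro w p f hs N M hN hM0 hM η hη
  obtain ⟨hf, hsol, hd⟩ := weak_of_intOn hS hgr hG hs
  have hlim : limsupNorm f ≤ ENNReal.ofReal M := by
    apply limsup_le_of_le
    · isBoundedDefault
    · have e1 : ∀ᶠ t in atTop ⊓ ae volume, N ≤ t :=
        (eventually_ge_atTop N).filter_mono inf_le_left
      have e2 : ∀ᶠ t in atTop ⊓ ae volume, N ≤ t → ‖f t‖ ≤ M := hM.filter_mono inf_le_right
      filter_upwards [e1, e2] with t ht1 ht2
      rw [← ofReal_norm]
      exact ENNReal.ofReal_le_ofReal (ht2 ht1)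
  have h1 := h f _ hf (hlim.trans_lt ENNReal.ofReal_lt_top) hsol
  have h2 : K * limsupNorm f < ENNReal.ofReal (K.toReal * M + η) := by
    calc K * limsupNorm f ≤ K * ENNReal.ofReal M := by gcongr
      _ = ENNReal.ofReal (K.toReal * M) := by
          rw [ENNReal.ofReal_mul ENNReal.toReal_nonneg, ENNReal.ofReal_toReal hK]
      _ < ENNReal.ofReal (K.toReal * M + η) := by
          apply (ENNReal.ofReal_lt_ofReal_iff _).2 (by linarith)
          have : 0 ≤ K.toReal * M := mul_nonneg ENNReal.toReal_nonneg hM0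
          linarith
  have h3 := eventually_lt_of_limsup_lt (h1.trans_lt h2)
  obtain ⟨N', hN'⟩ := (h3.and (eventually_gt_atTop 0)).exists_forall_of_atTop
  refine ⟨N', fun t ht => ?_⟩
  obtain ⟨a1, a2⟩ := hN' t ht
  rw [hd t a2, ← ofReal_norm] at a1
  exact ((ENNReal.ofReal_lt_ofReal_iff_of_nonneg (norm_nonneg _)).1 a1).le

/-- uniform admissibility over the square roots gives admissibility -/
theorem admissible_of_admI {A : H →ₗ.[ℝ] H} (hA : IsSelfAdjoint A) {b : ℝ} (hb0 : 0 < b)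
    (hb : ∀ v : A.domain, b * ‖(v : H)‖ ^ 2 ≤ ⟪A v, (v : H)⟫) {c : ℝ} {K : ℝ≥0∞} (hK : K ≠ ⊤)
    (h : ∀ (S : H →ₗ.[ℝ] H) (G : H →L[ℝ] H), IsSqrtOf S A → (∀ x y, (x, y) ∈ S.graph ↔ x = G y) →
      (∀ x y, ⟪G x, y⟫ = ⟪x, G y⟫) → (∀ x, G x = 0 → x = 0) →
      (∀ x, ‖G x‖ ≤ (Real.sqrt b)⁻¹ * ‖x‖) → AdmI G c K.toReal) : IsAdmissible A c K := by
  intro f u hf hfin hsol
  obtain ⟨S, w, hS, s1, s2, s3, s4, s5⟩ := hsol
  obtain ⟨G, g1, g2, g3, g4⟩ := exists_G hA hb0 hb hS
  have hadm := h S G hS g1 g2 g3 g4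
  have hint := intOn_of_weak g1 g2 hf s1 s2 s3 s4 s5
  have hK0 : 0 ≤ K.toReal := ENNReal.toReal_nonneg
  have hF0 : 0 ≤ (limsupNorm f).toReal := ENNReal.toReal_nonneg
  apply ENNReal.le_of_forall_pos_le_add
  intro δ hδ _
  have hδ' : (0 : ℝ) < δ := by exact_mod_cast hδ
  set k := K.toReal with hk
  set F := (limsupNorm f).toReal with hF
  set ε : ℝ := δ / (k + 1) with hε
  have hε0 : 0 < ε := by positivity
  have hεk : (k + 1) * ε = δ := by rw [hε]; field_simp
  have hlt : limsupNorm f < ENNReal.ofReal (F + ε) := by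
    rw [← ENNReal.ofReal_toReal hfin.ne]
    exact (ENNReal.ofReal_lt_ofReal_iff_of_nonneg hF0).2 (by linarith)
  have hev := eventually_lt_of_limsup_lt hlt
  obtain ⟨s, hs, t, ht, hst⟩ := mem_inf_iff_superset.1 hev
  obtain ⟨N, hN⟩ := mem_atTop_sets.1 hs
  have hae : ∀ᵐ x, max N 1 ≤ x → ‖f x‖ ≤ F + ε := by
    filter_upwards [ht] with x hx hxN
    have := hst ⟨hN x ((le_max_left _ _).trans hxN), hx⟩
    simp only [Set.mem_setOf_eq] at this
    rw [← ofReal_norm] at this
    exact ((ENNReal.ofReal_lt_ofReal_iff_of_nonneg (norm_nonneg _)).1 this).le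
  obtain ⟨N', hN'⟩ := hadm w (deriv u) f hint (max N 1) (F + ε) (by positivity) (by linarith) hae
    ε hε0
  apply limsup_le_of_le
  · isBoundedDefault
  · filter_upwards [eventually_ge_atTop N'] with x hx
    have h1 := hN' x hx
    have h2 : k * (F + ε) + ε = k * F + δ := by rw [← hεk]; ring
    rw [h2] at h1
    rw [← ofReal_norm]
    calc ENNReal.ofReal ‖deriv u x‖ ≤ ENNReal.ofReal (k * F + δ) := ENNReal.ofReal_le_ofReal h1
      _ = ENNReal.ofReal (k * F) + ENNReal.ofReal δ :=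
          ENNReal.ofReal_add (mul_nonneg hK0 hF0) hδ'.le
      _ = K * limsupNorm f + δ := by
          rw [ENNReal.ofReal_mul hK0, hk, hF, ENNReal.ofReal_toReal hK,
            ENNReal.ofReal_toReal hfin.ne, ENNReal.ofReal_coe_nnreal]

theorem admissible_mono {A : H →ₗ.[ℝ] H} (hA : IsSelfAdjoint A) (hc : IsCoerciveOp A) {c1 c2 : ℝ}
    (h1 : 0 < c1) (h12 : c1 < c2) {K : ℝ≥0∞} (hK : K ≠ ⊤) (h : IsAdmissible A c1 K) :
    IsAdmissible A c2 K := by
  obtain ⟨b, hb0, hb⟩ := hc
  apply admissible_of_admI hA hb0 hb hK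
  intro S G hS g1 g2 g3 g4
  exact admI_mono g2 g3 h1 h12 ENNReal.toReal_nonneg (admI_of_admissible hS g1 g2 hK h)

theorem optK_mono {A : H →ₗ.[ℝ] H} (hA : IsSelfAdjoint A) (hc : IsCoerciveOp A) {c1 c2 : ℝ}
    (h1 : 0 < c1) (h12 : c1 < c2) : optK A c2 ≤ optK A c1 := by
  apply le_sInf
  intro K hK
  by_cases hT : K = ⊤
  · rw [hT]; exact le_top
  · exact sInf_le (admissible_mono hA hc h1 h12 hT hK)

theorem optK_lt_top {A : H →ₗ.[ℝ] H} (hA : IsSelfAdjoint A) (hc : IsCoerciveOp A) {c : ℝ}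
    (h1 : 0 < c) : optK A c < ⊤ := by
  obtain ⟨b, hb0, hb⟩ := hc
  set g := (Real.sqrt b)⁻¹ with hg
  have hg0 : 0 ≤ g := by positivity
  have : IsAdmissible A c (ENNReal.ofReal (RC g c c)) := by
    apply admissible_of_admI hA hb0 hb ENNReal.ofReal_ne_top
    intro S G hS g1 g2 g3 g4
    rw [ENNReal.toReal_ofReal (RC_nonneg _ _ _)]
    apply kapF_admI g2 hg0 g4 h1 (RC_nonneg _ _ _)
    intro w p f t1 T M a1 a2 a3 a4
    exact (sol_bound g2 hg0 g4 h1 le_rfl le_rfl a1 a3 (T := T) (fun t _ => a4 t) le_rfl).2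
  exact (sInf_le this).trans_lt ENNReal.ofReal_lt_top

end Pool.Agent.H54.Damp
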